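import Pool.Agent.Helper15_CM.Wgt

/-!
# GEN0, GEN0J: degenerate generation (CM project, MP_31342c_an)
-/

set_option autoImplicit false
set_option linter.unusedSectionVars false

noncomputable section

namespace Pool.Agent.Helper95_CM.H15

open MvPolynomial

variable {n : ℕ}

lemma E0_mon (M : ℕ) (S : Finset (Fin n)) (s : Expo n) :
    E0 M S (mon s) = open Classical in if Cpt s S then mon (s + vx M S) else 0 := by
  classical
  unfold E0 mon
  rw [support_monomial, if_neg one_ne_zero, Finset.sum_singleton, coeff_monomial, if_pos rfl]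

lemma Y0_mon (M : ℕ) (i : Fin (n + 1)) (s : Expo n) :
    Y0 M i (mon s) = ∑ S : Finset (Fin n), ((vx M S i : ℕ) : ℚ) •
      (open Classical in if Cpt s S then mon (s + vx M S) else 0 : PP n ℚ) := by
  unfold Y0
  refine Finset.sum_congr rfl fun S _ => ?_
  rw [E0_mon]
  rfl

lemma mem_ini (π : Equiv.Perm (Fin n)) (r : ℕ) (k : Fin n) :
    k ∈ ini π r ↔ ((π.symm k : Fin n) : ℕ) < r := by
  simp [ini]

lemma apply_mem_ini (π : Equiv.Perm (Fin n)) (r : ℕ) (k : Fin n) :
    π k ∈ ini π r ↔ (k : ℕ) < r := by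
  rw [mem_ini, Equiv.symm_apply_apply]

/-- the difference operator: `[π(r-1) ∈ S] - [π(r) ∈ S]` -/
def eps (π : Equiv.Perm (Fin n)) (r : ℕ) (S : Finset (Fin n)) : ℚ :=
  (if h : 0 < r ∧ r ≤ n then (if π ⟨r - 1, by omega⟩ ∈ S then 1 else 0) else 1) -
  (if h : r < n then (if π ⟨r, h⟩ ∈ S then 1 else 0) else 0)

lemma eps_ini (π : Equiv.Perm (Fin n)) (r j : ℕ) (hr : r ≤ n) (hj : j ≤ n) :
    eps π r (ini π j) = if r = j then 1 else 0 := by
  unfold eps
  by_cases h0 : 0 < r
  · rw [dif_pos ⟨h0, hr⟩]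
    by_cases h1 : r < n
    · rw [dif_pos h1]
      simp only [apply_mem_ini]
      split_ifs <;> first | omega | norm_num
    · rw [dif_neg h1]
      simp only [apply_mem_ini]
      split_ifs <;> first | omega | norm_num
  · rw [dif_neg (by omega)]
    by_cases h1 : r < n
    · rw [dif_pos h1]
      simp only [apply_mem_ini]
      split_ifs <;> first | omega | norm_num
    · rw [dif_neg h1]
      split_ifs <;> first | omega | norm_num

/-- general combination: `Σ_S c(S) [Cpt s S] mon(s + v_S) ∈ Q` for `c` in the span of the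
coordinate functions -/
def Good (M : ℕ) (Q : Submodule ℚ (PP n ℚ)) (s : Expo n) (c : Finset (Fin n) → ℚ) : Prop :=
  (∑ S : Finset (Fin n), c S •
      (open Classical in if Cpt s S then mon (s + vx M S) else 0 : PP n ℚ)) ∈ Q

lemma Good.add {M : ℕ} {Q : Submodule ℚ (PP n ℚ)} {s : Expo n} {c c' : Finset (Fin n) → ℚ}
    (h : Good M Q s c) (h' : Good M Q s c') : Good M Q s (fun S => c S + c' S) := by
  unfold Good at *
  simp only [add_smul, Finset.sum_add_distrib]
  exact Q.add_mem h h'

lemma Good.smul {M : ℕ} {Q : Submodule ℚ (PP n ℚ)} {s : Expo n} {c : Finset (Fin n) → ℚ}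
    (a : ℚ) (h : Good M Q s c) : Good M Q s (fun S => a * c S) := by
  unfold Good at *
  simp only [mul_smul]
  rw [← Finset.smul_sum]
  exact Q.smul_mem a h

lemma good_one {M : ℕ} {Q : Submodule ℚ (PP n ℚ)} {s : Expo n}
    (hQ : ∀ i, ∀ x ∈ Q, Y0 M i x ∈ Q) (hs : mon s ∈ Q) : Good M Q s (fun _ => 1) := by
  have h := hQ 0 _ hs
  rw [Y0_mon] at h
  unfold Good
  simpa only [vx_zero, Nat.cast_one] using h

lemma good_mem {M : ℕ} (hM : 1 ≤ M) {Q : Submodule ℚ (PP n ℚ)} {s : Expo n}
    (hQ : ∀ i, ∀ x ∈ Q, Y0 M i x ∈ Q) (hs : mon s ∈ Q) (k : Fin n) :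
    Good M Q s (fun S => if k ∈ S then 1 else 0) := by
  have h := hQ k.succ _ hs
  rw [Y0_mon] at h
  have h1 : Good M Q s (fun S => ((vx M S k.succ : ℕ) : ℚ)) := h
  have h2 := h1.smul ((M : ℚ)⁻¹)
  have hM' : (M : ℚ) ≠ 0 := by positivity
  convert h2 using 2 with S
  rw [vx_succ]
  split_ifs
  · rw [inv_mul_cancel₀ hM']
  · simp

lemma good_eps {M : ℕ} (hM : 1 ≤ M) {Q : Submodule ℚ (PP n ℚ)} {s : Expo n}
    (hQ : ∀ i, ∀ x ∈ Q, Y0 M i x ∈ Q) (hs : mon s ∈ Q) (π : Equiv.Perm (Fin n)) (r : ℕ) :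
    Good M Q s (eps π r) := by
  have h1 := good_one hQ hs
  have hz : Good M Q s (fun _ => 0) := by
    have := h1.smul 0
    simpa using this
  have ha : Good M Q s (fun S =>
      (if h : 0 < r ∧ r ≤ n then (if π ⟨r - 1, by omega⟩ ∈ S then 1 else 0) else 1 : ℚ)) := by
    by_cases h : 0 < r ∧ r ≤ n
    · simp only [dif_pos h]; exact good_mem hM hQ hs _
    · simp only [dif_neg h]; exact h1
  have hb : Good M Q s (fun S =>
      (if h : r < n then (if π ⟨r, h⟩ ∈ S then 1 else 0) else 0 : ℚ)) := by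
    by_cases h : r < n
    · simp only [dif_pos h]; exact good_mem hM hQ hs _
    · simp only [dif_neg h]; exact hz
  have := ha.add (hb.smul (-1))
  convert this using 2 with S
  unfold eps
  ring

lemma inCone_add_vx {M : ℕ} {b : Bool} {s : Expo n} (hs : InCone M b s) (S : Finset (Fin n)) :
    InCone M b (s + vx M S) := by
  rw [add_comm]
  exact (inCone_vx M S).add hs

/-- the generation argument up to a given level -/
lemma gen0_le (hSort : SortStmt) (hLex : LexStmt) (n M : ℕ) (b : Bool)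
    (Q : Submodule ℚ (PP n ℚ)) (hn : 1 ≤ n) (hM : 1 ≤ M) (L : ℕ)
    (hred : ∀ s, IsRed M b s → s 0 ≤ L → mon s ∈ Q) (hQ : ∀ i, ∀ x ∈ Q, Y0 M i x ∈ Q) :
    ∀ l ≤ L, ∀ s, InCone M b s → s 0 = l → mon s ∈ Q := by
  intro l
  induction l using Nat.strong_induction_on with
  | _ l ihl =>
  intro hl
  have wf : WellFounded (fun a c : Lex (Fin n → Fin n) => c < a) := wellFounded_gt
  have main : ∀ p : Lex (Fin n → Fin n), ∀ s, InCone M b s → s 0 = l →
      toLex (fun r => srt s r) = p → mon s ∈ Q := by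
    intro p
    induction p using wf.induction with
    | _ p ihp =>
    intro s hs hsl hp
    by_cases hr : IsRed M b s
    · exact hred s hr (hsl.trans_le hl)
    · unfold IsRed at hr
      push Not at hr
      obtain ⟨r, hrn, hlr⟩ := hr hs
      obtain ⟨s1, hs1, hsrt, hss⟩ := (hSort n M b s hn hM hs).2.1 r hrn hlr
      have hlev : s1 0 + 1 = l := by
        rw [← hsl, hss, Finsupp.add_apply, vx_zero]
      have hs1Q : mon s1 ∈ Q := ihl (s1 0) (by omega) (by omega) s1 hs1 rfl
      have hg := good_eps hM hQ hs1Q (srt s) r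
      unfold Good at hg
      have hcpt : Cpt s1 (ini (srt s) r) := by
        intro i j hi hj
        rw [mem_ini] at hi hj
        rw [← hsrt] at hi hj
        have := srt_antitone s1 (a := (srt s1).symm j) (b := (srt s1).symm i)
          (by rw [Fin.le_def]; omega)
        rwa [Equiv.apply_symm_apply, Equiv.apply_symm_apply] at this
      rw [← Finset.add_sum_erase _ _ (Finset.mem_univ (ini (srt s) r)), eps_ini _ _ _ hrn hrn,
        if_pos rfl, one_smul, if_pos hcpt, ← hss] at hg
      refine (Submodule.add_mem_iff_left Q ?_).mp hg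
      refine Q.sum_mem fun S hS => ?_
      rw [Finset.mem_erase] at hS
      by_cases hc : Cpt s1 S
      · rw [if_pos hc]
        rcases hLex n M s1 S hn hM hc with ⟨j, hj, hSj⟩ | hlt
        · rw [hSj, hsrt, eps_ini _ _ _ hrn hj, if_neg, zero_smul]
          · exact Q.zero_mem
          · rintro rfl
            exact hS.1 (by rw [hSj, hsrt])
        · refine Q.smul_mem _ (ihp _ ?_ (s1 + vx M S) (inCone_add_vx hs1 S) ?_ rfl)
          · rw [← hp, ← hsrt]
            obtain ⟨r', h1, h2⟩ := hlt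
            exact ⟨r', h1, h2⟩
          · rw [Finsupp.add_apply, vx_zero]; omega
      · rw [if_neg hc, smul_zero]
        exact Q.zero_mem
  intro s hs hsl
  exact main _ s hs hsl rfl

theorem gen0 (hSort : SortStmt) (hLex : LexStmt) : Gen0Stmt := by
  intro n M b Q hn hM hred hQ s hs
  exact gen0_le hSort hLex n M b Q hn hM (s 0) (fun s' h _ => hred s' h) hQ (s 0) le_rfl s hs rfl

end Pool.Agent.Helper95_CM.H15
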