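import Pool.Agent.Helper15_CM.Gen

/-!
# GEN0J: degenerate generation with the Jacobian (CM project, MP_31342c_an)
-/

set_option autoImplicit false
set_option linter.unusedSectionVars false

noncomputable section

namespace Pool.Agent.Helper95_CM.H15

open MvPolynomial

variable {n : ℕ}

lemma sum_vx_zero (M : ℕ) (A : Finset ℕ) (f : ℕ → Finset (Fin n)) :
    (∑ r ∈ A, vx M (f r)) 0 = A.card := by
  rw [Finsupp.finsetSum_apply]
  simp [vx_zero]

lemma sum_vx_succ (M : ℕ) (A : Finset ℕ) (π : Equiv.Perm (Fin n)) (i : Fin n) :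
    (∑ r ∈ A, vx M (ini π r)) (π i).succ = M * (A.filter fun j => (i : ℕ) < j).card := by
  rw [Finsupp.finsetSum_apply]
  simp only [vx_succ, apply_mem_ini]
  rw [Finset.sum_ite, Finset.sum_const_zero, add_zero, Finset.sum_const, smul_eq_mul, mul_comm]

lemma upi_zero (M : ℕ) (π : Equiv.Perm (Fin n)) : upi M π 0 = n + 1 := by
  unfold upi
  rw [sum_vx_zero, Finset.card_range]

lemma upi_succ (M : ℕ) (π : Equiv.Perm (Fin n)) (i : Fin n) :
    upi M π (π i).succ = M * (n - i) := by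
  unfold upi
  rw [sum_vx_succ]
  congr 1
  have : (Finset.range (n + 1)).filter (fun j => (i : ℕ) < j) = Finset.Ioc (i : ℕ) n := by
    ext j
    simp only [Finset.mem_filter, Finset.mem_range, Finset.mem_Ioc]
    omega
  rw [this, Nat.card_Ioc]

/-- the exponent `τ` of a wall -/
def tau (M : ℕ) (π : Equiv.Perm (Fin n)) (r : ℕ) : Expo n :=
  ∑ j ∈ (Finset.range (n + 1)).erase r, vx M (ini π j)

lemma tau_add (M : ℕ) (π : Equiv.Perm (Fin n)) (r : ℕ) (hr : r ≤ n) :
    tau M π r + vx M (ini π r) = upi M π := by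
  unfold tau upi
  rw [add_comm]
  exact Finset.add_sum_erase _ (fun j => vx M (ini π j)) (Finset.mem_range.mpr (by omega))

lemma tau_zero (M : ℕ) (π : Equiv.Perm (Fin n)) (r : ℕ) (hr : r ≤ n) : tau M π r 0 = n := by
  unfold tau
  rw [sum_vx_zero, Finset.card_erase_of_mem (Finset.mem_range.mpr (by omega)), Finset.card_range]
  rfl

/-- number of `j ≤ n`, `j ≠ r`, `i < j` -/
def cnt (n r i : ℕ) : ℕ := (((Finset.range (n + 1)).erase r).filter fun j => i < j).card

lemma tau_succ (M : ℕ) (π : Equiv.Perm (Fin n)) (r : ℕ) (i : Fin n) :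
    tau M π r (π i).succ = M * cnt n r i := by
  unfold tau cnt
  rw [sum_vx_succ]

lemma cnt_eq {r i : ℕ} (hr : 0 < r) (hrn : r < n) (hi : i < n) :
    cnt n r i = if i < r then n - i - 1 else n - i := by
  unfold cnt
  rw [Finset.filter_erase]
  have h1 : (Finset.range (n + 1)).filter (fun j => i < j) = Finset.Ioc i n := by
    ext j
    simp only [Finset.mem_filter, Finset.mem_range, Finset.mem_Ioc]
    omega
  rw [h1]
  split_ifs with h
  · rw [Finset.card_erase_of_mem (Finset.mem_Ioc.mpr ⟨h, by omega⟩), Nat.card_Ioc]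
  · rw [Finset.erase_eq_of_notMem (by rw [Finset.mem_Ioc]; omega), Nat.card_Ioc]

lemma tau_cone {M : ℕ} (hM : 1 ≤ M) (π : Equiv.Perm (Fin n)) (r : ℕ) (hr : 0 < r) (hrn : r < n) :
    InCone M true (tau M π r) := by
  intro k
  have h := tau_succ M π r (π.symm k)
  rw [Equiv.apply_symm_apply, cnt_eq hr hrn (π.symm k).2] at h
  rw [h, tau_zero M π r hrn.le]
  have h2 := (π.symm k).2
  constructor
  · apply Nat.mul_pos (by omega)
    split_ifs <;> omega
  · apply Nat.mul_lt_mul_of_pos_left _ (by omega)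
    split_ifs <;> omega

lemma tau_le_iff {M : ℕ} (hM : 1 ≤ M) (π : Equiv.Perm (Fin n)) (r : ℕ) (i j : Fin n) :
    tau M π r (π i).succ ≤ tau M π r (π j).succ ↔ cnt n r i ≤ cnt n r j := by
  rw [tau_succ, tau_succ]
  exact Nat.mul_le_mul_left_iff (by omega)

lemma cpt_tau_ini {M : ℕ} (hM : 1 ≤ M) (π : Equiv.Perm (Fin n)) (r : ℕ) (hr : 0 < r)
    (hrn : r < n) : Cpt (tau M π r) (ini π r) := by
  intro i j hi hj
  rw [mem_ini] at hi hj
  have h := tau_le_iff hM π r (π.symm i) (π.symm j)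
  rw [Equiv.apply_symm_apply, Equiv.apply_symm_apply] at h
  rw [h, cnt_eq hr hrn (π.symm i).2, cnt_eq hr hrn (π.symm j).2]
  have h2 := (π.symm i).2
  have h3 := (π.symm j).2
  split_ifs <;> omega

lemma eq_ini_of_cpt {M : ℕ} (hM : 1 ≤ M) (π : Equiv.Perm (Fin n)) (r : ℕ) (hr : 0 < r)
    (hrn : r < n) (S : Finset (Fin n)) (hS : Cpt (tau M π r) S)
    (h1 : π ⟨r - 1, by omega⟩ ∈ S) (h2 : π ⟨r, hrn⟩ ∉ S) : S = ini π r := by
  ext k
  rw [mem_ini]
  have hk := (π.symm k).2
  constructor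
  · intro hkS
    by_contra hc
    have h3 := hS _ _ h2 hkS
    have h4 := tau_le_iff hM π r ⟨r, hrn⟩ (π.symm k)
    rw [Equiv.apply_symm_apply] at h4
    rw [h4, cnt_eq hr hrn hrn, cnt_eq hr hrn hk, if_neg (lt_irrefl r), if_neg hc] at h3
    have h5 : (π.symm k : ℕ) = r := by omega
    have h6 : k = π ⟨r, hrn⟩ := by
      rw [← Equiv.symm_apply_eq]
      exact Fin.ext h5
    rw [h6] at hkS
    exact h2 hkS
  · intro hlt
    by_contra hc
    have h3 := hS _ _ hc h1
    have h4 := tau_le_iff hM π r (π.symm k) ⟨r - 1, by omega⟩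
    rw [Equiv.apply_symm_apply] at h4
    rw [h4, cnt_eq hr hrn hk, cnt_eq hr hrn (by omega : r - 1 < n), if_pos hlt,
      if_pos (by omega : r - 1 < r)] at h3
    have h5 : (π.symm k : ℕ) = r - 1 := by omega
    have h6 : k = π ⟨r - 1, by omega⟩ := by
      rw [← Equiv.symm_apply_eq]
      exact Fin.ext h5
    rw [h6] at hc
    exact hc h1

/-- the adjacent permutation -/
def adjp (π : Equiv.Perm (Fin n)) (r : ℕ) (hr : 0 < r) (hrn : r < n) : Equiv.Perm (Fin n) :=
  π * Equiv.swap ⟨r - 1, by omega⟩ ⟨r, hrn⟩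

lemma adjp_left (π : Equiv.Perm (Fin n)) (r : ℕ) (hr : 0 < r) (hrn : r < n) :
    adjp π r hr hrn ⟨r - 1, by omega⟩ = π ⟨r, hrn⟩ := by
  simp [adjp, Equiv.Perm.mul_apply]

lemma adjp_right (π : Equiv.Perm (Fin n)) (r : ℕ) (hr : 0 < r) (hrn : r < n) :
    adjp π r hr hrn ⟨r, hrn⟩ = π ⟨r - 1, by omega⟩ := by
  simp [adjp, Equiv.Perm.mul_apply]

lemma ini_adjp (π : Equiv.Perm (Fin n)) (r : ℕ) (hr : 0 < r) (hrn : r < n) (j : ℕ) (hj : j ≠ r) :
    ini (adjp π r hr hrn) j = ini π j := by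
  ext k
  have e : ∃ i, k = adjp π r hr hrn i := ⟨(adjp π r hr hrn).symm k, by simp⟩
  obtain ⟨i, rfl⟩ := e
  rw [apply_mem_ini]
  by_cases h1 : i = ⟨r - 1, by omega⟩
  · subst h1
    rw [adjp_left, apply_mem_ini]
    simp only
    omega
  · by_cases h2 : i = ⟨r, hrn⟩
    · subst h2
      rw [adjp_right, apply_mem_ini]
      simp only
      omega
    · have : adjp π r hr hrn i = π i := by
        unfold adjp
        rw [Equiv.Perm.mul_apply, Equiv.swap_apply_of_ne_of_ne h1 h2]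
      rw [this, apply_mem_ini]

lemma tau_adjp (M : ℕ) (π : Equiv.Perm (Fin n)) (r : ℕ) (hr : 0 < r) (hrn : r < n) :
    tau M (adjp π r hr hrn) r = tau M π r := by
  unfold tau
  refine Finset.sum_congr rfl fun j hj => ?_
  rw [ini_adjp π r hr hrn j (Finset.ne_of_mem_erase hj)]

lemma wall {M : ℕ} (hM : 1 ≤ M) {Q : Submodule ℚ (PP n ℚ)}
    (hQ : ∀ i, ∀ x ∈ Q, Y0 M i x ∈ Q) (π : Equiv.Perm (Fin n)) (r : ℕ) (hr : 0 < r) (hrn : r < n)
    (ht : mon (tau M π r) ∈ Q) :
    (mon (upi M π) : PP n ℚ) - mon (upi M (adjp π r hr hrn)) ∈ Q := by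
  have hg := (good_mem hM hQ ht (π ⟨r - 1, by omega⟩)).add
    ((good_mem hM hQ ht (π ⟨r, hrn⟩)).smul (-1))
  unfold Good at hg
  have hne : ini π r ≠ ini (adjp π r hr hrn) r := by
    intro h
    have h1 : π ⟨r - 1, by omega⟩ ∈ ini π r := by
      rw [apply_mem_ini]; simp only; omega
    rw [h, ← adjp_right π r hr hrn, apply_mem_ini] at h1
    simp at h1
  rw [Finset.sum_eq_add (ini π r) (ini (adjp π r hr hrn) r) hne] at hg
  · rw [if_pos (cpt_tau_ini hM π r hr hrn), tau_add M π r hrn.le] at hg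
    have hc2 := cpt_tau_ini hM (adjp π r hr hrn) r hr hrn
    rw [tau_adjp] at hc2
    have ht2 := tau_add M (adjp π r hr hrn) r hrn.le
    rw [tau_adjp] at ht2
    rw [if_pos hc2, ht2] at hg
    have a1 : π ⟨r - 1, by omega⟩ ∈ ini π r := by
      rw [apply_mem_ini]; simp only; omega
    have a2 : π ⟨r, hrn⟩ ∉ ini π r := by
      rw [apply_mem_ini]; simp
    have a3 : π ⟨r - 1, by omega⟩ ∉ ini (adjp π r hr hrn) r := by
      rw [← adjp_right π r hr hrn, apply_mem_ini]; simp
    have a4 : π ⟨r, hrn⟩ ∈ ini (adjp π r hr hrn) r := by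
      rw [← adjp_left π r hr hrn, apply_mem_ini]; simp only; omega
    simp only [if_pos a1, if_neg a2, if_neg a3, if_pos a4] at hg
    convert hg using 1
    module
  · intro S _ hS
    by_cases hc : Cpt (tau M π r) S
    · rw [if_pos hc]
      by_cases b1 : π ⟨r - 1, by omega⟩ ∈ S
      · by_cases b2 : π ⟨r, hrn⟩ ∈ S
        · simp [b1, b2]
        · exact absurd (eq_ini_of_cpt hM π r hr hrn S hc b1 b2) hS.1
      · by_cases b2 : π ⟨r, hrn⟩ ∈ S
        · exfalso
          refine hS.2 (eq_ini_of_cpt hM (adjp π r hr hrn) r hr hrn S ?_ ?_ ?_)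
          · rw [tau_adjp]; exact hc
          · rw [adjp_left]; exact b2
          · rw [adjp_right]; exact b1
        · simp [b1, b2]
    · rw [if_neg hc, smul_zero]
  · intro h; exact absurd (Finset.mem_univ _) h
  · intro h; exact absurd (Finset.mem_univ _) h

lemma topE_eq (M : ℕ) : topE n M = upi M (Fin.revPerm : Equiv.Perm (Fin n)) := by
  ext j
  refine Fin.cases ?_ (fun k => ?_) j
  · rw [upi_zero]; rfl
  · have h := upi_succ M (Fin.revPerm : Equiv.Perm (Fin n)) (Fin.revPerm.symm k)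
    rw [Equiv.apply_symm_apply] at h
    rw [h]
    unfold topE
    rw [mkE_succ]
    congr 1
    have : (Fin.revPerm.symm k : Fin n) = Fin.rev k := rfl
    rw [this, Fin.val_rev]
    omega

theorem gen0J (hSort : SortStmt) (hLex : LexStmt) (hRF : RedFinStmt) : Gen0JStmt := by
  intro n M Q hn hM hred hQ hJ s hs
  have hlow : ∀ s, InCone M true s → s 0 ≤ n → mon s ∈ Q := by
    intro s hs hsn
    refine gen0_le hSort hLex n M true Q hn hM n (fun s' h h' => hred s' h ?_) hQ (s 0) hsn s hs rfl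
    rintro rfl
    rw [topE_eq, upi_zero] at h'
    omega
  have hwall : ∀ (π : Equiv.Perm (Fin n)) (r : ℕ) (hr : 0 < r) (hrn : r < n),
      (mon (upi M π) : PP n ℚ) - mon (upi M (adjp π r hr hrn)) ∈ Q := fun π r hr hrn =>
    wall hM hQ π r hr hrn (hlow _ (tau_cone hM π r hr hrn) (tau_zero M π r hrn.le).le)
  have hall : ∀ π σ : Equiv.Perm (Fin n),
      (mon (upi M (σ * π)) : PP n ℚ) - mon (upi M σ) ∈ Q := by
    obtain ⟨m, rfl⟩ : ∃ m, n = m + 1 := ⟨n - 1, by omega⟩
    intro π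
    have hπ : π ∈ Submonoid.closure
        (Set.range fun i : Fin m => Equiv.swap i.castSucc i.succ) := by
      rw [Equiv.Perm.mclosure_swap_castSucc_succ]; trivial
    induction hπ using Submonoid.closure_induction with
    | mem x hx =>
      obtain ⟨i, rfl⟩ := hx
      intro σ
      have h1 := hwall σ (i + 1) (Nat.succ_pos _) (Nat.succ_lt_succ i.2)
      have h2 : adjp σ (i + 1) (Nat.succ_pos _) (Nat.succ_lt_succ i.2)
          = σ * Equiv.swap i.castSucc i.succ := rfl
      rw [h2] at h1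
      have := Q.neg_mem h1
      rwa [neg_sub] at this
    | one => intro σ; rw [mul_one, sub_self]; exact Q.zero_mem
    | mul x y _ _ hx hy =>
      intro σ
      have := Q.add_mem (hy (σ * x)) (hx σ)
      rw [← mul_assoc]
      convert this using 1
      ring
  have h1 : ∀ π : Equiv.Perm (Fin n), (mon (upi M π) : PP n ℚ) - mon (upi M 1) ∈ Q := fun π => by
    have := hall π 1
    rwa [one_mul] at this
  have hone : (mon (upi M 1) : PP n ℚ) ∈ Q := by
    have h2 : (∑ π : Equiv.Perm (Fin n), ((mon (upi M π) : PP n ℚ) - mon (upi M 1))) ∈ Q :=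
      Q.sum_mem fun π _ => h1 π
    rw [Finset.sum_sub_distrib] at h2
    have h3 := Q.sub_mem hJ h2
    rw [sub_sub_cancel, Finset.sum_const, Finset.card_univ] at h3
    have hc : ((Fintype.card (Equiv.Perm (Fin n)) : ℕ) : ℚ) ≠ 0 :=
      Nat.cast_ne_zero.mpr Fintype.card_ne_zero
    have h4 := Q.smul_mem ((Fintype.card (Equiv.Perm (Fin n)) : ℚ)⁻¹) h3
    rw [← Nat.cast_smul_eq_nsmul ℚ, smul_smul, inv_mul_cancel₀ hc, one_smul] at h4
    exact h4
  have htop : mon (topE n M) ∈ Q := by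
    rw [topE_eq]
    have := Q.add_mem (h1 Fin.revPerm) hone
    rwa [sub_add_cancel] at this
  refine gen0 hSort hLex n M true Q hn hM (fun s' h => ?_) hQ s hs
  by_cases hst : s' = topE n M
  · rw [hst]; exact htop
  · exact hred s' h hst

end Pool.Agent.Helper95_CM.H15
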