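import Pool.Agent.Helper15_CM.J0
import Pool.Agent.Helper95_CM.StB

/-!
# GENL: generic generation, level by level (CM project, MP_31342c_an)
-/

set_option autoImplicit false
set_option linter.unusedSectionVars false

noncomputable section

namespace Pool.Agent.Helper95_CM.H15

open MvPolynomial

variable {n : ℕ}

/-! ### linear algebra -/

lemma exists_det_ne_zero {E ι : Type} [Fintype E] [DecidableEq E] (v : ι → (E → ℚ))
    (hv : Submodule.span ℚ (Set.range v) = ⊤) :
    ∃ f : E → ι, (Matrix.of fun i j => v (f j) i).det ≠ 0 := by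
  obtain ⟨κ, a, _, hspan, hli⟩ := exists_linearIndependent' ℚ v
  have hsp : ⊤ ≤ Submodule.span ℚ (Set.range (v ∘ a)) := by rw [hspan, hv]
  let bs : Module.Basis κ ℚ (E → ℚ) := Module.Basis.mk hli hsp
  have : Fintype κ := FiniteDimensional.fintypeBasisIndex bs
  have hcard : Fintype.card κ = Fintype.card E := by
    rw [← Module.finrank_eq_card_basis bs, Module.finrank_fintype_fun_eq_card]
  let e : E ≃ κ := Fintype.equivOfCardEq hcard.symm
  refine ⟨fun i => a (e i), ?_⟩
  have h1 : LinearIndependent ℚ (Matrix.of fun i j => v (a (e j)) i : Matrix E E ℚ).col := by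
    have h2 : (Matrix.of fun i j => v (a (e j)) i : Matrix E E ℚ).col = (v ∘ a) ∘ e := by
      funext j i
      rfl
    rw [h2]
    exact hli.comp e e.injective
  rw [Matrix.linearIndependent_cols_iff_isUnit] at h1
  exact ((Matrix.isUnit_iff_isUnit_det _).mp h1).ne_zero

/-! ### the operators `E0`, `Y0` -/

lemma coeff_E0 (M : ℕ) (S : Finset (Fin n)) (x : PP n ℚ) (s : Expo n) :
    coeff s (E0 M S x) = open Classical in
      if vx M S ≤ s ∧ Cpt (s - vx M S) S then coeff (s - vx M S) x else 0 := by
  classical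
  unfold E0
  rw [coeff_sum]
  have h1 : ∀ u ∈ x.support, coeff s (if Cpt u S then monomial (u + vx M S) (coeff u x) else 0)
      = if u = s - vx M S then (if vx M S ≤ s ∧ Cpt (s - vx M S) S then coeff (s - vx M S) x
        else 0) else 0 := by
    intro u _
    by_cases h2 : Cpt u S
    · rw [if_pos h2, coeff_monomial]
      by_cases h3 : u + vx M S = s
      · have h4 : u = s - vx M S := by rw [← h3, add_tsub_cancel_right]
        rw [if_pos h3, if_pos h4, if_pos, h4]
        rw [← h4]
        exact ⟨by rw [← h3]; exact le_add_self, h2⟩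
      · rw [if_neg h3]
        by_cases h4 : u = s - vx M S
        · rw [if_pos h4, if_neg]
          rintro ⟨h5, _⟩
          exact h3 (by rw [h4, tsub_add_cancel_of_le h5])
        · rw [if_neg h4]
    · rw [if_neg h2, coeff_zero]
      by_cases h4 : u = s - vx M S
      · rw [if_pos h4, if_neg]
        rintro ⟨_, h5⟩
        rw [← h4] at h5
        exact h2 h5
      · rw [if_neg h4]
  rw [Finset.sum_congr rfl h1, Finset.sum_ite_eq' x.support (s - vx M S)]
  split_ifs with h2 h3 h3
  · rfl
  · rfl
  · rw [notMem_support_iff.mp h2]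
  · rfl

lemma E0_add (M : ℕ) (S : Finset (Fin n)) (x y : PP n ℚ) :
    E0 M S (x + y) = E0 M S x + E0 M S y := by
  ext s
  rw [coeff_add, coeff_E0, coeff_E0, coeff_E0]
  split_ifs
  · rw [coeff_add]
  · rw [add_zero]

lemma E0_smul (M : ℕ) (S : Finset (Fin n)) (a : ℚ) (x : PP n ℚ) :
    E0 M S (a • x) = a • E0 M S x := by
  ext s
  rw [coeff_smul, coeff_E0, coeff_E0]
  split_ifs
  · rw [coeff_smul]
  · rw [smul_zero]

lemma Y0_add (M : ℕ) (i : Fin (n + 1)) (x y : PP n ℚ) : Y0 M i (x + y) = Y0 M i x + Y0 M i y := by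
  unfold Y0
  simp only [E0_add, smul_add, Finset.sum_add_distrib]

lemma Y0_smul (M : ℕ) (i : Fin (n + 1)) (a : ℚ) (x : PP n ℚ) : Y0 M i (a • x) = a • Y0 M i x := by
  unfold Y0
  simp only [E0_smul, Finset.smul_sum]
  refine Finset.sum_congr rfl fun S _ => ?_
  rw [smul_comm]

/-- `Y0` as a linear map -/
def Y0l (M : ℕ) (i : Fin (n + 1)) : PP n ℚ →ₗ[ℚ] PP n ℚ where
  toFun := Y0 M i
  map_add' := Y0_add M i
  map_smul' := Y0_smul M i

lemma coeff_Y0 (M : ℕ) (i : Fin (n + 1)) (x : PP n ℚ) (s : Expo n) :
    coeff s (Y0 M i x) = ∑ S : Finset (Fin n), vq M i S * coeff s (E0 M S x) := by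
  unfold Y0
  rw [coeff_sum]
  refine Finset.sum_congr rfl fun S _ => ?_
  rw [coeff_smul, smul_eq_mul]
  rfl

lemma Y0_lev (M : ℕ) (i : Fin (n + 1)) (x : PP n ℚ) (l : ℕ) (hx : HasLev l x) :
    HasLev (l + 1) (Y0 M i x) := by
  intro s hs
  rw [coeff_Y0] at hs
  obtain ⟨S, _, hS⟩ := Finset.exists_ne_zero_of_sum_ne_zero hs
  have h1 := right_ne_zero_of_mul hS
  rw [coeff_E0] at h1
  split_ifs at h1 with h2
  · have h3 : (s - vx M S) 0 = l := hx _ h1
    have h4 := h2.1 0
    change s 0 = l + 1
    rw [vx_zero] at h4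
    rw [Finsupp.coe_tsub, Pi.sub_apply, vx_zero] at h3
    omega
  · exact absurd rfl h1

/-! ### the comparison relation -/

/-- `x` over `ℚ[t]`, in the rescaled basis, reduces to `x₀` -/
def Rel (M : ℕ) (x : PP n (Polynomial ℚ)) (x0 : PP n ℚ) : Prop :=
  IsCone M false x ∧ ∀ s : Expo n, ∃ a : Polynomial ℚ,
    coeff s x = Polynomial.X ^ wgt M s * (Polynomial.C (coeff s x0) + Polynomial.X * a)

lemma Yp_csp {M : ℕ} (hM : 1 ≤ M) (i : Fin (n + 1)) : Yp (csp n M) i =
    ∑ S : Finset (Fin n), monomial (vx M S)
      (Polynomial.C (vq M i S) * Polynomial.X ^ wgt M (vx M S) : Polynomial ℚ) := by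
  unfold Yp
  rw [Fp_csp hM, map_sum]
  refine Finset.sum_congr rfl fun S _ => ?_
  rw [th_monomial]
  rfl

lemma rel_Y {M : ℕ} (hn : 1 ≤ n) (hM : 1 ≤ M) (i : Fin (n + 1)) {x : PP n (Polynomial ℚ)}
    {x0 : PP n ℚ} (h : Rel M x x0) : Rel M (Yp (csp n M) i * x) (Y0 M i x0) := by
  classical
  refine ⟨(isCone_Yp _ i).mul h.1, fun s => ?_⟩
  rw [Yp_csp hM, Finset.sum_mul, coeff_sum, coeff_Y0]
  have hterm : ∀ S : Finset (Fin n), ∃ a : Polynomial ℚ,
      coeff s (monomial (vx M S)
        (Polynomial.C (vq M i S) * Polynomial.X ^ wgt M (vx M S) : Polynomial ℚ) * x) =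
      Polynomial.X ^ wgt M s *
        (Polynomial.C (vq M i S * coeff s (E0 M S x0)) + Polynomial.X * a) := by
    intro S
    rw [coeff_monomial_mul', coeff_E0]
    by_cases hv : vx M S ≤ s
    · rw [if_pos hv]
      obtain ⟨a, ha⟩ := h.2 (s - vx M S)
      by_cases hu : coeff (s - vx M S) x = 0
      · have h0 : coeff (s - vx M S) x0 = 0 := by
          rw [hu] at ha
          have h1 := (mul_eq_zero.mp ha.symm).resolve_left (pow_ne_zero _ Polynomial.X_ne_zero)
          have h2 := congrArg (fun q => Polynomial.coeff q 0) h1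
          simpa using h2
        refine ⟨0, ?_⟩
        rw [hu, h0]
        simp
      · have hcone := h.1 _ hu
        have hW := wgt_thm n M (s - vx M S) S hn hM hcone
        rw [tsub_add_cancel_of_le hv] at hW
        obtain ⟨e, he⟩ := Nat.exists_eq_add_of_le hW.1
        by_cases hc : Cpt (s - vx M S) S
        · have he0 : e = 0 := by
            have := hW.2.mpr hc
            omega
          rw [if_pos ⟨hv, hc⟩, ha]
          refine ⟨Polynomial.C (vq M i S) * a, ?_⟩
          have h3 : (Polynomial.X : Polynomial ℚ) ^ wgt M (vx M S) *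
              Polynomial.X ^ wgt M (s - vx M S) = Polynomial.X ^ wgt M s := by
            rw [← pow_add]
            congr 1
            omega
          rw [map_mul]
          calc _ = Polynomial.C (vq M i S) * ((Polynomial.X : Polynomial ℚ) ^ wgt M (vx M S) *
              Polynomial.X ^ wgt M (s - vx M S)) *
                (Polynomial.C (coeff (s - vx M S) x0) + Polynomial.X * a) := by ring
            _ = _ := by rw [h3]; ring
        · have he0 : e ≠ 0 := by
            rintro rfl
            exact hc (hW.2.mp (by omega))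
          obtain ⟨e', rfl⟩ := Nat.exists_eq_succ_of_ne_zero he0
          refine ⟨Polynomial.C (vq M i S) * Polynomial.X ^ e' *
            (Polynomial.C (coeff (s - vx M S) x0) + Polynomial.X * a), ?_⟩
          rw [if_neg (fun h4 => hc h4.2), ha, mul_zero, map_zero, zero_add]
          have h3 : (Polynomial.X : Polynomial ℚ) ^ wgt M (vx M S) *
              Polynomial.X ^ wgt M (s - vx M S) =
              Polynomial.X ^ wgt M s * (Polynomial.X * Polynomial.X ^ e') := by
            rw [← pow_add, ← pow_succ', ← pow_add]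
            congr 1
            omega
          calc _ = Polynomial.C (vq M i S) * ((Polynomial.X : Polynomial ℚ) ^ wgt M (vx M S) *
              Polynomial.X ^ wgt M (s - vx M S)) *
                (Polynomial.C (coeff (s - vx M S) x0) + Polynomial.X * a) := by ring
            _ = _ := by rw [h3]; ring
    · rw [if_neg hv, if_neg (fun h4 => hv h4.1)]
      exact ⟨0, by simp⟩
  choose a ha using hterm
  refine ⟨∑ S, a S, ?_⟩
  rw [Finset.sum_congr rfl fun S _ => ha S, ← Finset.mul_sum, Finset.sum_add_distrib,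
    ← map_sum, ← Finset.mul_sum]

/-! ### the generating families -/

section
variable {R : Type} [CommRing R]

/-- generators over `R` -/
def gR (M : ℕ) (b : Bool) (c : Grid n M → R) (p : Expo n × List (Fin (n + 1))) : PP n R :=
  (p.2.map (Yp c)).prod * bbo b (topE n M) c p.1

end

open Classical in
/-- degenerate generators of length zero -/
def b0 (M : ℕ) (b : Bool) (s : Expo n) : PP n ℚ :=
  if b = true ∧ s = topE n M then
    ((M : ℚ) ^ (2 * n)) • ∑ π : Equiv.Perm (Fin n), mon (upi M π) else mon s

/-- degenerate generators -/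
def g0 (M : ℕ) (b : Bool) (p : Expo n × List (Fin (n + 1))) : PP n ℚ :=
  p.2.foldr (fun i x => Y0 M i x) (b0 M b p.1)

open Classical in
/-- power of `t` attached to a generator -/
def om (M : ℕ) (b : Bool) (s : Expo n) : ℕ := if b = true ∧ s = topE n M then 0 else wgt M s

lemma coeff_b0_top (M : ℕ) (s : Expo n) :
    coeff s (((M : ℚ) ^ (2 * n)) • ∑ π : Equiv.Perm (Fin n), mon (upi M π) : PP n ℚ) =
      open Classical in ((M : ℚ) ^ (2 * n)) *
        ((Finset.univ.filter fun π : Equiv.Perm (Fin n) => upi M π = s).card : ℚ) := by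
  classical
  rw [coeff_smul, smul_eq_mul, coeff_sum]
  congr 1
  unfold mon
  simp only [coeff_monomial]
  rw [Finset.sum_boole]

lemma cone_Jac_false {M : ℕ} (hM : 1 ≤ M) : IsCone M false (Jac (csp n M)) := by
  rw [Jac_csp hM]
  refine Supp.sum _ _ fun f _ => Supp.monomial ?_ _
  exact (wp_sum M Finset.univ (fun i => vx M (f i)) (fun i _ => inCone_vx M _) 1).2

lemma rel_g {M : ℕ} (hn : 1 ≤ n) (hM : 1 ≤ M) (b : Bool) (s : Expo n) (hs : InCone M b s)
    (w : List (Fin (n + 1))) :
    Rel M (C (Polynomial.X ^ om M b s : Polynomial ℚ) * gR M b (csp n M) (s, w)) (g0 M b (s, w)) := by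
  classical
  induction w with
  | nil =>
    unfold gR g0 om b0 bbo
    simp only [List.map_nil, List.prod_nil, one_mul, List.foldr_nil]
    by_cases h : b = true ∧ s = topE n M
    · rw [if_pos h, if_pos h, if_pos h, pow_zero, C_1, one_mul]
      refine ⟨cone_Jac_false hM, fun s' => ?_⟩
      obtain ⟨a, ha⟩ := j0 n M hn hM s'
      refine ⟨a, ?_⟩
      rw [ha, coeff_b0_top]
    · rw [if_neg h, if_neg h, if_neg h]
      unfold mon
      rw [C_mul_monomial, mul_one]
      refine ⟨Supp.monomial hs.toFalse _, fun s' => ?_⟩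
      rw [coeff_monomial, coeff_monomial]
      by_cases h1 : s = s'
      · rw [if_pos h1, if_pos h1, h1]
        exact ⟨0, by simp⟩
      · rw [if_neg h1, if_neg h1]
        exact ⟨0, by simp⟩
  | cons i w ih =>
    have h := rel_Y hn hM i ih
    have h1 : Yp (csp n M) i * (C (Polynomial.X ^ om M b s : Polynomial ℚ) *
        gR M b (csp n M) (s, w)) =
        C (Polynomial.X ^ om M b s : Polynomial ℚ) * gR M b (csp n M) (s, i :: w) := by
      unfold gR
      simp only [List.map_cons, List.prod_cons]
      ring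
    rw [h1] at h
    exact h

lemma lev_g0 (M : ℕ) (b : Bool) (s : Expo n) (w : List (Fin (n + 1))) :
    HasLev (s 0 + w.length) (g0 M b (s, w)) := by
  classical
  induction w with
  | nil =>
    unfold g0 b0
    simp only [List.foldr_nil, List.length_nil, add_zero]
    split_ifs with h
    · intro s' hs'
      rw [coeff_smul] at hs'
      have h1 : coeff s' (∑ π : Equiv.Perm (Fin n), mon (upi M π) : PP n ℚ) ≠ 0 := by
        intro h2; rw [h2, smul_zero] at hs'; exact hs' rfl
      have h2 : HasLev (n + 1) (∑ π : Equiv.Perm (Fin n), mon (upi M π) : PP n ℚ) :=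
        Supp.sum _ _ fun π _ => Supp.monomial (P := fun s => s 0 = n + 1) (upi_zero M π) (1 : ℚ)
      change s' 0 = s 0
      rw [h2 s' h1, h.2, topE_eq, upi_zero]
    · exact Supp.monomial (P := fun s' => s' 0 = s 0) rfl (1 : ℚ)
  | cons i w ih =>
    have := Y0_lev M i _ _ ih
    rw [List.length_cons, ← add_assoc]
    exact this

lemma finite_cone (M l : ℕ) : {s : Expo n | InCone M false s ∧ s 0 = l}.Finite := by
  have hf : (Set.Iic (fun _ : Fin (n + 1) => max l (M * l))).Finite := Set.finite_Iic _
  refine Set.Finite.of_finite_image (f := fun s : Expo n => (fun j => s j : Fin (n + 1) → ℕ)) ?_ ?_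
  · refine hf.subset ?_
    rintro _ ⟨s, ⟨hs, hl⟩, rfl⟩
    rw [Set.mem_Iic, Pi.le_def]
    intro j
    refine Fin.cases ?_ (fun k => ?_) j
    · change s 0 ≤ max l (M * l)
      rw [hl]; exact le_max_left _ _
    · have := hs k
      rw [hl] at this
      exact this.trans (le_max_right _ _)
  · intro s _ s' _ h
    ext j
    exact congrFun h j

/-- spanning modulo `t` -/
lemma span_top (hSort : SortStmt) (hLex : LexStmt) (hRF : RedFinStmt) {M : ℕ} (b : Bool) (l : ℕ)
    (hn : 1 ≤ n) (hM : 1 ≤ M) (E : Type) [Fintype E] [DecidableEq E] (ev : E → Expo n)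
    (hinj : Function.Injective ev)
    (hev : ∀ e, InCone M b (ev e) ∧ ev e 0 = l) :
    Submodule.span ℚ (Set.range fun p : {p : Expo n × List (Fin (n + 1)) //
      IsRed M b p.1 ∧ p.1 0 + p.2.length = l} => fun e : E => coeff (ev e) (g0 M b p.1)) = ⊤ := by
  classical
  set Q : Submodule ℚ (PP n ℚ) := Submodule.span ℚ (Set.range fun p : {p : Expo n ×
    List (Fin (n + 1)) // IsRed M b p.1} => g0 M b p.1) with hQdef
  have hQY : ∀ i, ∀ x ∈ Q, Y0 M i x ∈ Q := by
    intro i x hx
    have h1 : Q ≤ Q.comap (Y0l M i) := by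
      rw [hQdef, Submodule.span_le]
      rintro _ ⟨p, rfl⟩
      exact Submodule.subset_span ⟨⟨(p.1.1, i :: p.1.2), p.2⟩, rfl⟩
    exact h1 hx
  have hgen : ∀ s, IsRed M b s → b0 M b s ∈ Q := fun s hs =>
    Submodule.subset_span ⟨⟨(s, []), hs⟩, rfl⟩
  have hall : ∀ s, InCone M b s → mon s ∈ Q := by
    cases b with
    | false =>
      refine gen0 hSort hLex n M false Q hn hM (fun s hs => ?_) hQY
      have := hgen s hs
      unfold b0 at this
      rwa [if_neg (by simp)] at this
    | true =>
      refine gen0J hSort hLex hRF n M Q hn hM (fun s hs hst => ?_) hQY ?_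
      · have := hgen s hs
        unfold b0 at this
        rwa [if_neg (by simp [hst])] at this
      · have h1 := hgen (topE n M) ((hRF n M true hn hM).2.1 rfl)
        unfold b0 at h1
        rw [if_pos ⟨rfl, rfl⟩] at h1
        have h2 := Q.smul_mem (((M : ℚ) ^ (2 * n))⁻¹) h1
        rwa [smul_smul, inv_mul_cancel₀ (by positivity), one_smul] at h2
  let pr : PP n ℚ →ₗ[ℚ] (E → ℚ) :=
    { toFun := fun x e => coeff (ev e) x
      map_add' := fun x y => by funext e; simp [coeff_add]
      map_smul' := fun a x => by funext e; simp [coeff_smul] }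
  set T : Submodule ℚ (E → ℚ) := Submodule.span ℚ (Set.range fun p : {p : Expo n × List (Fin (n + 1)) //
      IsRed M b p.1 ∧ p.1 0 + p.2.length = l} => fun e : E => coeff (ev e) (g0 M b p.1)) with hT
  have hpr : Q ≤ T.comap pr := by
    rw [hQdef, Submodule.span_le]
    rintro _ ⟨p, rfl⟩
    change pr (g0 M b p.1) ∈ T
    by_cases hl : p.1.1 0 + p.1.2.length = l
    · exact Submodule.subset_span ⟨⟨p.1, p.2, hl⟩, rfl⟩
    · have : pr (g0 M b p.1) = 0 := by
        funext e
        change coeff (ev e) (g0 M b p.1) = 0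
        by_contra hc
        have h1 : ev e 0 = _ := lev_g0 M b p.1.1 p.1.2 (ev e) hc
        rw [(hev e).2] at h1
        exact hl h1.symm
      rw [this]
      exact T.zero_mem
  rw [eq_top_iff]
  intro x _
  have hx : x = ∑ e : E, x e • (Pi.single e 1 : E → ℚ) := by
    funext e'
    simp [Finset.sum_apply, Pi.single_apply]
  rw [hx]
  refine T.sum_mem fun e _ => T.smul_mem _ ?_
  have h1 := hpr (hall (ev e) (hev e).1)
  have h2 : pr (mon (ev e)) = Pi.single e 1 := by
    funext e'
    change coeff (ev e') (mon (ev e)) = _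
    unfold mon
    rw [coeff_monomial, Pi.single_apply]
    by_cases h3 : e' = e
    · rw [if_pos h3, if_pos (by rw [h3])]
    · rw [if_neg h3, if_neg]
      intro h4
      exact h3 (hinj h4).symm
  rw [← h2]
  exact h1

lemma map_gR {R S : Type} [CommRing R] [CommRing S] (g : R →+* S) (M : ℕ) (b : Bool)
    (c : Grid n M → R) (p : Expo n × List (Fin (n + 1))) :
    map g (gR M b c p) = gR M b (fun β => g (c β)) p := by
  unfold gR
  rw [map_mul, map_list_prod, List.map_map]
  congr 1
  · congr 1
    refine List.map_congr_left fun i _ => ?_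
    exact map_Yp g c i
  · unfold bbo
    split_ifs
    · exact map_Jac g c
    · exact map_mon g _

lemma supp_list {R : Type} [CommRing R] (M : ℕ) (c : Grid n M → R) (w : List (Fin (n + 1))) :
    IsCone M false (w.map (Yp c)).prod ∧ HasLev w.length (w.map (Yp c)).prod := by
  induction w with
  | nil => exact ⟨isCone_one, hasLev_one⟩
  | cons i w ih =>
    rw [List.map_cons, List.prod_cons, List.length_cons, add_comm w.length]
    exact ⟨(isCone_Yp c i).mul ih.1, (hasLev_Yp c i).mul ih.2⟩

lemma supp_gR (hJC : JConeStmt) {R : Type} [CommRing R] {M : ℕ} (hn : 1 ≤ n) (hM : 1 ≤ M) (b : Bool)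
    (c : Grid n M → R) (p : Expo n × List (Fin (n + 1))) (hp : InCone M b p.1) :
    IsCone M b (gR M b c p) ∧ HasLev (p.1 0 + p.2.length) (gR M b c p) := by
  have h1 := supp_list M c p.2
  have h2 : IsCone M b (bbo b (topE n M) c p.1) ∧ HasLev (p.1 0) (bbo b (topE n M) c p.1) := by
    unfold bbo
    split_ifs with h
    · have h3 := hJC n M R (fun i => th i (Fp c)) hn hM
        (fun i => ⟨(isCone_Fp c).th i, (hasLev_Fp c).th i⟩)
      have h4 : (Matrix.of fun j i => th j ((fun i => th i (Fp c)) i)).det = Jac c := rfl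
      rw [h4] at h3
      rw [h.1, h.2, topE_eq, upi_zero]
      exact h3
    · exact ⟨Supp.monomial hp _, Supp.monomial (P := fun s' => s' 0 = p.1 0) rfl (1 : R)⟩
  have h5 := h1.2.mul h2.2
  rw [add_comm p.2.length] at h5
  exact ⟨h1.1.mul h2.1, h5⟩

/-- homogeneous monomial attached to a word -/
lemma hom_list {R : Type} [CommRing R] (w : List (Fin (n + 1))) :
    ((w.map (X : Fin (n + 1) → MvPolynomial (Fin (n + 1)) R)).prod).IsHomogeneous w.length := by
  induction w with
  | nil => exact isHomogeneous_one _ _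
  | cons i w ih =>
    rw [List.map_cons, List.prod_cons, List.length_cons, add_comm w.length]
    exact (isHomogeneous_X _ i).mul ih

theorem genl (hSort : SortStmt) (hLex : LexStmt) (hRF : RedFinStmt) (hJC : JConeStmt) :
    GenLStmt := by
  classical
  intro n M b l hn hM
  have hfin : {s : Expo n | InCone M b s ∧ s 0 = l}.Finite :=
    (finite_cone M l).subset fun s hs => ⟨hs.1.toFalse, hs.2⟩
  let E := {s : Expo n // InCone M b s ∧ s 0 = l}
  have : Fintype E := hfin.fintype
  have hspan := span_top hSort hLex hRF b l hn hM E (fun e => e.1) Subtype.val_injective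
    (fun e => e.2)
  obtain ⟨f, hf⟩ := exists_det_ne_zero _ hspan
  -- the generic matrix
  let G : Matrix E E (MvPolynomial (Grid n M) ℤ) :=
    Matrix.of fun i j => coeff i.1 (gR M b (gen n M) (f j).1)
  have hG : G.det ≠ 0 := by
    intro h0
    let ge : MvPolynomial (Grid n M) ℤ →+* Polynomial ℚ := (aeval (csp n M)).toRingHom
    have hge : (fun β => ge (gen n M β)) = csp n M := by
      funext β
      exact aeval_X _ _
    have h1 : (ge.mapMatrix G).det = 0 := by
      rw [← RingHom.map_det, h0, map_zero]
    have hrel : ∀ j : E, Rel M (C (Polynomial.X ^ om M b (f j).1.1 : Polynomial ℚ) *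
        gR M b (csp n M) (f j).1) (g0 M b (f j).1) := fun j =>
      rel_g hn hM b (f j).1.1 (f j).2.1.1 (f j).1.2
    choose a ha using fun (j : E) (i : E) => (hrel j).2 i.1
    have h2 : ∀ i j : E, ge.mapMatrix G i j = coeff i.1 (gR M b (csp n M) (f j).1) := by
      intro i j
      rw [RingHom.mapMatrix_apply, Matrix.map_apply]
      change ge (coeff i.1 (gR M b (gen n M) (f j).1)) = _
      rw [← coeff_map, map_gR, hge]
    let A : Matrix E E (Polynomial ℚ) := Matrix.of fun i j =>
      Polynomial.C (coeff i.1 (g0 M b (f j).1)) + Polynomial.X * a j i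
    have h3 : (Matrix.of fun i j : E => (fun j : E => (Polynomial.X ^ om M b (f j).1.1 :
        Polynomial ℚ)) j * ge.mapMatrix G i j) =
        Matrix.of fun i j : E => (fun i : E => (Polynomial.X ^ wgt M i.1 : Polynomial ℚ)) i *
          A i j := by
      ext1 i j
      rw [Matrix.of_apply, Matrix.of_apply, h2]
      simp only
      rw [← coeff_C_mul, ha j i]
      rfl
    have h4 := congrArg Matrix.det h3
    rw [Matrix.det_mul_row, Matrix.det_mul_column, h1, mul_zero] at h4
    have h5 : A.det = 0 := by
      rcases mul_eq_zero.mp h4.symm with h6 | h6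
      · exfalso
        rw [Finset.prod_eq_zero_iff] at h6
        obtain ⟨i, _, h7⟩ := h6
        exact pow_ne_zero _ Polynomial.X_ne_zero h7
      · exact h6
    apply hf
    have h6 : (Polynomial.evalRingHom (0 : ℚ)).mapMatrix A =
        Matrix.of fun i j : E => coeff i.1 (g0 M b (f j).1) := by
      ext i j
      rw [RingHom.mapMatrix_apply, Matrix.map_apply]
      simp [A]
    have h7 := congrArg (Polynomial.evalRingHom (0 : ℚ)) h5
    rw [RingHom.map_det, h6, map_zero] at h7
    exact h7
  refine ⟨G.det, hG, fun s hs hsl => ?_⟩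
  let s' : E := ⟨s, hs, hsl⟩
  refine ⟨fun u => ∑ j : E, if (f j).1.1 = u then
      C (G.adjugate j s') * (((f j).1.2.map X).prod : MvPolynomial (Fin (n + 1)) _) else 0,
    Finset.univ.image fun j : E => (f j).1.1, ?_, ?_, ?_⟩
  · intro u hu
    rw [Finset.mem_image] at hu
    obtain ⟨j, _, rfl⟩ := hu
    exact (f j).2.1
  · intro u hu
    constructor
    · refine IsHomogeneous.sum _ _ _ fun j _ => ?_
      split_ifs with h
      · have h1 := (f j).2.2
        have h2 : l - u 0 = 0 + (f j).1.2.length := by rw [← h]; omega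
        rw [h2]
        exact (isHomogeneous_C _ _).mul (hom_list _)
      · exact isHomogeneous_zero _ _ _
    · rw [Finset.mem_image] at hu
      obtain ⟨j, _, rfl⟩ := hu
      have := (f j).2.2
      omega
  · -- the identity
    have hrhs : (∑ u ∈ Finset.univ.image (fun j : E => (f j).1.1),
        aeval (Yp (gen n M)) (∑ j : E, if (f j).1.1 = u then
      C (G.adjugate j s') * (((f j).1.2.map X).prod : MvPolynomial (Fin (n + 1)) _) else 0) *
        bbo b (topE n M) (gen n M) u) =
        ∑ j : E, C (G.adjugate j s') * gR M b (gen n M) (f j).1 := by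
      simp only [map_sum, Finset.sum_mul]
      rw [Finset.sum_comm]
      refine Finset.sum_congr rfl fun j _ => ?_
      rw [Finset.sum_eq_single (f j).1.1]
      · rw [if_pos rfl, map_mul]
        unfold gR
        rw [← mul_assoc]
        congr 2
        · rw [aeval_C]; rfl
        · rw [map_list_prod, List.map_map]
          congr 1
          refine List.map_congr_left fun i _ => ?_
          rw [Function.comp, aeval_X]
      · intro u _ hu
        rw [if_neg (Ne.symm hu), map_zero, zero_mul]
      · intro h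
        exact absurd (Finset.mem_image_of_mem _ (Finset.mem_univ j)) h
    rw [hrhs]
    ext u
    rw [coeff_sum, coeff_C_mul]
    simp only [coeff_C_mul]
    by_cases hu : InCone M b u ∧ u 0 = l
    · let u' : E := ⟨u, hu⟩
      have h1 : ∀ j : E, G.adjugate j s' * coeff u (gR M b (gen n M) (f j).1) =
          G u' j * G.adjugate j s' := by
        intro j
        rw [mul_comm]
        rfl
      rw [Finset.sum_congr rfl fun j _ => h1 j, ← Matrix.mul_apply, Matrix.mul_adjugate,
        Matrix.smul_apply, Matrix.one_apply, smul_eq_mul]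
      unfold mon
      rw [coeff_monomial]
      congr 1
      by_cases h2 : s = u
      · rw [if_pos h2, if_pos]
        exact Subtype.ext h2.symm
      · rw [if_neg h2, if_neg]
        intro h3
        exact h2 (congrArg Subtype.val h3).symm
    · have h1 : ∀ j : E, coeff u (gR M b (gen n M) (f j).1) = 0 := by
        intro j
        by_contra hc
        have h2 := supp_gR hJC hn hM b (gen n M) (f j).1 (f j).2.1.1
        exact hu ⟨h2.1 u hc, by rw [h2.2 u hc]; exact (f j).2.2⟩
      simp only [h1, mul_zero, Finset.sum_const_zero]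
      unfold mon
      rw [coeff_monomial, if_neg, mul_zero]
      rintro rfl
      exact hu ⟨hs, hsl⟩

end Pool.Agent.Helper95_CM.H15
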