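import Pool.Agent.Helper15_CM.GenJ

/-!
# J0: the Jacobian of the special family modulo `t` (CM project, MP_31342c_an)
-/

set_option autoImplicit false
set_option linter.unusedSectionVars false

noncomputable section

namespace Pool.Agent.Helper95_CM.H15

open MvPolynomial

variable {n : ℕ}

/-- the vertex as a grid point -/
def gv (M : ℕ) (S : Finset (Fin n)) : Grid n M := fun k => if k ∈ S then Fin.last M else 0

lemma gex_gv (M : ℕ) (S : Finset (Fin n)) : gex (gv M S) = vx M S := by
  ext j
  refine Fin.cases ?_ (fun k => ?_) j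
  · rfl
  · rw [gex_succ, vx_succ]
    unfold gv
    split_ifs <;> simp

lemma gex_inj {M : ℕ} {β β' : Grid n M} (h : gex β = gex β') : β = β' := by
  funext k
  apply Fin.ext
  rw [← gex_succ, ← gex_succ, h]

lemma vx_inj {M : ℕ} (hM : 1 ≤ M) {S S' : Finset (Fin n)} (h : vx M S = vx M S') : S = S' := by
  ext k
  have h1 : vx M S k.succ = vx M S' k.succ := by rw [h]
  rw [vx_succ, vx_succ] at h1
  constructor
  · intro hk
    by_contra hc
    rw [if_pos hk, if_neg hc] at h1
    omega
  · intro hk
    by_contra hc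
    rw [if_neg hc, if_pos hk] at h1
    omega

lemma Fp_csp {M : ℕ} (hM : 1 ≤ M) : Fp (csp n M) =
    ∑ S : Finset (Fin n), monomial (vx M S) (Polynomial.X ^ wgt M (vx M S) : Polynomial ℚ) := by
  unfold Fp
  refine (Fintype.sum_of_injective (gv (n := n) M) ?_ _ _ ?_ ?_).symm
  · intro S S' h
    apply vx_inj hM
    rw [← gex_gv, ← gex_gv, h]
  · intro β hβ
    unfold csp
    rw [if_neg, monomial_zero]
    rintro ⟨S, hS⟩
    apply hβ
    refine ⟨S, ?_⟩
    apply gex_inj
    rw [gex_gv, hS]
  · intro S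
    unfold csp
    rw [if_pos ⟨S, gex_gv M S⟩, gex_gv]

/-- entries of the vertex vectors -/
def vq (M : ℕ) (i : Fin (n + 1)) (S : Finset (Fin n)) : ℚ := ((vx M S i : ℕ) : ℚ)

lemma Hes_csp {M : ℕ} (hM : 1 ≤ M) (i j : Fin (n + 1)) : Hes (csp n M) i j =
    ∑ S : Finset (Fin n), monomial (vx M S)
      (Polynomial.C (vq M i S * vq M j S) * Polynomial.X ^ wgt M (vx M S) : Polynomial ℚ) := by
  unfold Hes
  rw [Matrix.of_apply, Fp_csp hM, map_sum, map_sum]
  refine Finset.sum_congr rfl fun S _ => ?_
  rw [th_monomial, th_monomial]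
  congr 1
  unfold vq
  rw [map_mul, map_natCast, map_natCast, mul_assoc]

lemma prod_monomial {R : Type} [CommRing R] {ι : Type} (t : Finset ι) (e : ι → Expo n)
    (a : ι → R) : (∏ i ∈ t, (monomial (e i) (a i) : PP n R)) =
      monomial (∑ i ∈ t, e i) (∏ i ∈ t, a i) := by
  classical
  induction t using Finset.induction_on with
  | empty => simp
  | insert i t hi ih =>
    rw [Finset.prod_insert hi, ih, monomial_mul, Finset.sum_insert hi, Finset.prod_insert hi]

/-- the coefficient attached to a choice of vertices -/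
def kap (M : ℕ) (f : Fin (n + 1) → Finset (Fin n)) : ℚ :=
  (∏ i, vq M i (f i)) * (Matrix.of fun i j => vq M i (f j)).det

/-- the determinant of the Hessian of the special family -/
lemma Jac_csp {M : ℕ} (hM : 1 ≤ M) : Jac (csp n M) =
    ∑ f : Fin (n + 1) → Finset (Fin n), monomial (∑ i, vx M (f i))
      (Polynomial.C (kap M f) * Polynomial.X ^ (∑ i, wgt M (vx M (f i))) : Polynomial ℚ) := by
  unfold Jac
  rw [Matrix.det_apply]
  have h1 : ∀ σ : Equiv.Perm (Fin (n + 1)), (∏ i, Hes (csp n M) (σ i) i) =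
      ∑ f : Fin (n + 1) → Finset (Fin n), monomial (∑ i, vx M (f i))
      (Polynomial.C ((∏ i, vq M (σ i) (f i)) * ∏ i, vq M i (f i)) *
        Polynomial.X ^ (∑ i, wgt M (vx M (f i))) : Polynomial ℚ) := by
    intro σ
    simp only [Hes_csp hM]
    rw [Finset.prod_univ_sum, Fintype.piFinset_univ]
    refine Finset.sum_congr rfl fun f _ => ?_
    rw [prod_monomial]
    congr 1
    rw [Finset.prod_mul_distrib, Finset.prod_pow_eq_pow_sum, ← Finset.prod_mul_distrib,
      map_prod]
  simp only [h1, Finset.smul_sum]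
  rw [Finset.sum_comm]
  refine Finset.sum_congr rfl fun f _ => ?_
  have h2 : ∀ σ : Equiv.Perm (Fin (n + 1)),
      Equiv.Perm.sign σ • (monomial (∑ i, vx M (f i))
      (Polynomial.C ((∏ i, vq M (σ i) (f i)) * ∏ i, vq M i (f i)) *
        Polynomial.X ^ (∑ i, wgt M (vx M (f i))) : Polynomial ℚ) : PP n (Polynomial ℚ)) =
      monomial (∑ i, vx M (f i)) (Polynomial.C ((Equiv.Perm.sign σ • ∏ i, vq M (σ i) (f i)) *
        ∏ i, vq M i (f i)) * Polynomial.X ^ (∑ i, wgt M (vx M (f i)))) := by
    intro σ
    rcases Int.units_eq_one_or (Equiv.Perm.sign σ) with h | h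
    · rw [h, one_smul, one_smul]
    · rw [h]
      simp only [Units.neg_smul, one_smul, neg_mul, map_neg]
  simp only [h2]
  rw [← map_sum, ← Finset.sum_mul, ← map_sum, ← Finset.sum_mul]
  congr 1
  unfold kap
  rw [Matrix.det_apply, mul_comm (∏ i, vq M i (f i))]
  rfl

lemma wp_sum (M : ℕ) {ι : Type} (t : Finset ι) (f : ι → Expo n) (hf : ∀ i ∈ t, InCone M false (f i))
    (σ : Equiv.Perm (Fin n)) : wp M (∑ i ∈ t, f i) σ = ∑ i ∈ t, wp M (f i) σ ∧
      InCone M false (∑ i ∈ t, f i) := by
  classical
  induction t using Finset.induction_on with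
  | empty =>
    simp only [Finset.sum_empty]
    exact ⟨by simp [wp], inCone_zero⟩
  | insert i t hi ih =>
    have h1 := ih fun j hj => hf j (Finset.mem_insert_of_mem hj)
    have h2 := hf i (Finset.mem_insert_self i t)
    rw [Finset.sum_insert hi, Finset.sum_insert hi, wp_add M _ _ h2 h1.2, h1.1]
    exact ⟨rfl, h2.add h1.2⟩

lemma wgt_sum_le (M : ℕ) {ι : Type} (t : Finset ι) (f : ι → Finset (Fin n)) :
    wgt M (∑ i ∈ t, vx M (f i)) ≤ ∑ i ∈ t, wgt M (vx M (f i)) := by
  rw [wgt_eq_wp, (wp_sum M t _ (fun i _ => inCone_vx M (f i)) _).1]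
  exact Finset.sum_le_sum fun i _ => wp_le M _ _

lemma eq_ini_of_antitone {M : ℕ} (hM : 1 ≤ M) (π : Equiv.Perm (Fin n)) (S : Finset (Fin n))
    (h : ∀ a b : Fin n, a ≤ b → vx M S (π b).succ ≤ vx M S (π a).succ) : S = ini π S.card := by
  -- `π⁻¹ S` is a lower set
  have hlow : ∀ a b : Fin n, a ≤ b → π b ∈ S → π a ∈ S := by
    intro a b hab hb
    have := h a b hab
    rw [vx_succ, vx_succ, if_pos hb] at this
    by_contra hc
    rw [if_neg hc] at this
    omega
  have hcard : S.card = (S.map π.symm.toEmbedding).card := (Finset.card_map _).symm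
  set T := S.map π.symm.toEmbedding with hT
  have hTmem : ∀ a : Fin n, a ∈ T ↔ π a ∈ S := by
    intro a
    rw [hT, Finset.mem_map]
    constructor
    · rintro ⟨x, hx, rfl⟩
      simpa using hx
    · intro h1
      exact ⟨π a, h1, by simp⟩
  have key : ∀ a : Fin n, a ∈ T ↔ (a : ℕ) < T.card := by
    intro a
    constructor
    · intro ha
      have hsub : Finset.univ.filter (fun x : Fin n => x ≤ a) ⊆ T := by
        intro x hx
        rw [Finset.mem_filter] at hx
        rw [hTmem]
        exact hlow x a hx.2 ((hTmem a).mp ha)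
      have := Finset.card_le_card hsub
      have h2 : (Finset.univ.filter (fun x : Fin n => x ≤ a)).card = a + 1 := by
        rw [show (Finset.univ.filter (fun x : Fin n => x ≤ a)) = Finset.Iic a by ext; simp]
        exact Fin.card_Iic a
      omega
    · intro ha
      by_contra hc
      have hsub : T ⊆ Finset.univ.filter (fun x : Fin n => x < a) := by
        intro x hx
        rw [Finset.mem_filter]
        refine ⟨Finset.mem_univ _, ?_⟩
        by_contra h1
        push Not at h1
        exact hc ((hTmem a).mpr (hlow a x h1 ((hTmem x).mp hx)))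
      have := Finset.card_le_card hsub
      have h2 : (Finset.univ.filter (fun x : Fin n => x < a)).card = a := by
        rw [show (Finset.univ.filter (fun x : Fin n => x < a)) = Finset.Iio a by ext; simp]
        exact Fin.card_Iio a
      omega
  ext k
  rw [mem_ini, hcard, ← key, hTmem, Equiv.apply_symm_apply]

lemma card_ini (π : Equiv.Perm (Fin n)) (r : ℕ) (hr : r ≤ n) : (ini π r).card = r := by
  have h : ini π r = (Finset.univ.filter (fun x : Fin n => (x : ℕ) < r)).map π.toEmbedding := by
    ext k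
    rw [mem_ini, Finset.mem_map]
    constructor
    · intro h
      exact ⟨π.symm k, by simpa using h, by simp⟩
    · rintro ⟨x, hx, rfl⟩
      simpa using hx
  rw [h, Finset.card_map]
  rcases Nat.lt_or_ge r n with h1 | h1
  · rw [show (Finset.univ.filter (fun x : Fin n => (x : ℕ) < r)) = Finset.Iio (⟨r, h1⟩ : Fin n) by
      ext x; simp [Fin.lt_def]]
    exact Fin.card_Iio _
  · have : (Finset.univ.filter (fun x : Fin n => (x : ℕ) < r)) = Finset.univ := by
      ext x; have := x.2; simp only [Finset.mem_filter, Finset.mem_univ, true_and, iff_true]; omega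
    rw [this, Finset.card_univ, Fintype.card_fin]
    omega

lemma srt_upi {M : ℕ} (hM : 1 ≤ M) (π : Equiv.Perm (Fin n)) : srt (upi M π) = π := by
  symm
  unfold srt
  rw [Tuple.eq_sort_iff]
  constructor
  · intro a b hab
    apply OrderDual.toDual_le_toDual.mpr
    rw [upi_succ, upi_succ]
    apply Nat.mul_le_mul_left
    have : (a : ℕ) ≤ b := hab
    omega
  · intro a b hab h
    exfalso
    have h1 : upi M π (π a).succ = upi M π (π b).succ := OrderDual.toDual_inj.mp h
    rw [upi_succ, upi_succ] at h1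
    have h2 := Nat.eq_of_mul_eq_mul_left (by omega) h1
    have h3 : (a : ℕ) < b := hab
    have h4 := a.2
    have h5 := b.2
    omega

/-- the matrix of a chamber -/
def Wm (M : ℕ) (π : Equiv.Perm (Fin n)) : Matrix (Fin (n + 1)) (Fin (n + 1)) ℚ :=
  Matrix.of fun i j => vq M i (ini π (j : ℕ))

lemma det_Wm (M : ℕ) (π : Equiv.Perm (Fin n)) : (Wm M π).det * (Wm M π).det = (M : ℚ) ^ (2 * n) := by
  have h1 : Wm M π = (Wm M 1).submatrix (Equiv.Perm.decomposeFin.symm (0, π.symm)) id := by
    ext i j
    rw [Matrix.submatrix_apply]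
    unfold Wm
    rw [Matrix.of_apply, Matrix.of_apply, id]
    refine Fin.cases ?_ (fun k => ?_) i
    · rw [Equiv.Perm.decomposeFin_symm_apply_zero]
      rfl
    · rw [Equiv.Perm.decomposeFin_symm_apply_succ, Equiv.swap_self, Equiv.refl_apply]
      unfold vq
      rw [vx_succ, vx_succ]
      simp only [mem_ini]
      rfl
  have h2 : (Wm M (1 : Equiv.Perm (Fin n))).det = (M : ℚ) ^ n := by
    rw [Matrix.det_of_upperTriangular]
    · rw [Fin.prod_univ_succ]
      have h3 : Wm M (1 : Equiv.Perm (Fin n)) 0 0 = 1 := by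
        unfold Wm vq
        rw [Matrix.of_apply, vx_zero, Nat.cast_one]
      have h4 : ∀ k : Fin n, Wm M (1 : Equiv.Perm (Fin n)) k.succ k.succ = M := by
        intro k
        unfold Wm vq
        rw [Matrix.of_apply, vx_succ, if_pos]
        rw [mem_ini]
        have h7 : (Equiv.symm (1 : Equiv.Perm (Fin n))) k = k := rfl
        rw [h7, Fin.val_succ]
        omega
      rw [h3, one_mul]
      simp only [h4]
      rw [Finset.prod_const, Finset.card_univ, Fintype.card_fin]
    · intro i j hij
      have hij' : j < i := hij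
      revert hij'
      refine Fin.cases ?_ (fun k => ?_) i
      · intro h; exact absurd h (Fin.not_lt_zero j)
      · intro h
        unfold Wm vq
        rw [Matrix.of_apply, vx_succ, if_neg, Nat.cast_zero]
        rw [mem_ini]
        have h5 : (j : ℕ) < k + 1 := h
        have h7 : (Equiv.symm (1 : Equiv.Perm (Fin n))) k = k := rfl
        rw [h7]
        omega
  rw [h1, Matrix.det_permute, h2]
  have h6 : ((Equiv.Perm.sign (Equiv.Perm.decomposeFin.symm (0, π.symm)) : ℤ) : ℚ) *
      ((Equiv.Perm.sign (Equiv.Perm.decomposeFin.symm (0, π.symm)) : ℤ) : ℚ) = 1 := by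
    rw [← Int.cast_mul, ← Units.val_mul, Int.units_mul_self]
    simp
  calc _ = (((Equiv.Perm.sign (Equiv.Perm.decomposeFin.symm (0, π.symm)) : ℤ) : ℚ) *
      ((Equiv.Perm.sign (Equiv.Perm.decomposeFin.symm (0, π.symm)) : ℤ) : ℚ)) *
        ((M : ℚ) ^ n * (M : ℚ) ^ n) := by ring
    _ = _ := by rw [h6, one_mul, ← pow_add, two_mul]

/-- the choice of vertices attached to an ordering of a chamber -/
def chm (π : Equiv.Perm (Fin n)) (τ : Equiv.Perm (Fin (n + 1))) : Fin (n + 1) → Finset (Fin n) :=
  fun i => ini π ((τ i : Fin (n + 1)) : ℕ)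

lemma sum_kap (M : ℕ) (π : Equiv.Perm (Fin n)) : ∑ τ : Equiv.Perm (Fin (n + 1)), kap M (chm π τ) =
    (M : ℚ) ^ (2 * n) := by
  rw [← det_Wm M π]
  have h1 : ∀ τ : Equiv.Perm (Fin (n + 1)), kap M (chm π τ) =
      (((Equiv.Perm.sign τ : ℤ) : ℚ) * ∏ i, (Wm M π).transpose (τ i) i) * (Wm M π).det := by
    intro τ
    unfold kap
    have h2 : (Matrix.of fun i j => vq M i (chm π τ j)) = (Wm M π).submatrix id τ := by
      ext i j; rfl
    rw [h2, Matrix.det_permute']
    have h3 : ∏ i, vq M i (chm π τ i) = ∏ i, (Wm M π).transpose (τ i) i := rfl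
    rw [h3]
    ring
  simp only [h1]
  rw [← Finset.sum_mul, ← Matrix.det_apply', Matrix.det_transpose]

lemma kap_eq_zero (M : ℕ) (f : Fin (n + 1) → Finset (Fin n)) (hf : ¬ Function.Injective f) :
    kap M f = 0 := by
  unfold Function.Injective at hf
  push Not at hf
  obtain ⟨i, j, hij, hne⟩ := hf
  unfold kap
  rw [Matrix.det_zero_of_column_eq hne, mul_zero]
  intro k
  rw [Matrix.of_apply, Matrix.of_apply, hij]

lemma sum_chm (M : ℕ) (π : Equiv.Perm (Fin n)) (τ : Equiv.Perm (Fin (n + 1))) :
    ∑ i, vx M (chm π τ i) = upi M π := by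
  unfold upi chm
  rw [Equiv.sum_comp τ (fun j : Fin (n + 1) => vx M (ini π (j : ℕ))),
    Fin.sum_univ_eq_sum_range (fun j => vx M (ini π j)) (n + 1)]

lemma wgt_chm {M : ℕ} (hM : 1 ≤ M) (π : Equiv.Perm (Fin n)) (τ : Equiv.Perm (Fin (n + 1))) :
    ∑ i, wgt M (vx M (chm π τ i)) = wgt M (upi M π) := by
  have h := (wp_sum M Finset.univ (fun i => vx M (chm π τ i))
    (fun i _ => inCone_vx M _) π).1
  rw [sum_chm] at h
  have h1 : wgt M (upi M π) = wp M (upi M π) π := by
    rw [wgt_eq_wp, srt_upi hM]
  rw [h1, h]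
  refine Finset.sum_congr rfl fun i _ => ?_
  symm
  rw [wp_eq_iff M _ (inCone_vx M _)]
  intro a b hab
  unfold chm
  rw [vx_succ, vx_succ]
  simp only [apply_mem_ini]
  have : (a : ℕ) ≤ b := hab
  split_ifs <;> omega

open Classical in
/-- the constant term -/
lemma sum_const {M : ℕ} (hM : 1 ≤ M) (s : Expo n) :
    (∑ f : Fin (n + 1) → Finset (Fin n),
      if (∑ i, vx M (f i) = s ∧ ∑ i, wgt M (vx M (f i)) = wgt M s) then kap M f else 0) =
    (M : ℚ) ^ (2 * n) * ((Finset.univ.filter fun π : Equiv.Perm (Fin n) => upi M π = s).card : ℚ) := by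
  have hinj : Function.Injective (chm (srt s)) := by
    intro τ τ' h
    ext i
    have h1 : (ini (srt s) ((τ i : Fin (n + 1)) : ℕ)).card =
        (ini (srt s) ((τ' i : Fin (n + 1)) : ℕ)).card := by
      have : chm (srt s) τ i = chm (srt s) τ' i := by rw [h]
      unfold chm at this
      rw [this]
    rwa [card_ini _ _ (Nat.lt_succ_iff.mp (τ i).2), card_ini _ _ (Nat.lt_succ_iff.mp (τ' i).2)] at h1
  rw [← Fintype.sum_of_injective (chm (srt s)) hinj
    (fun τ => if (∑ i, vx M (chm (srt s) τ i) = s ∧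
      ∑ i, wgt M (vx M (chm (srt s) τ i)) = wgt M s) then kap M (chm (srt s) τ) else 0) _ ?_
      (fun _ => rfl)]
  · by_cases h : upi M (srt s) = s
    · have h1 : ∀ τ, (if (∑ i, vx M (chm (srt s) τ i) = s ∧
        ∑ i, wgt M (vx M (chm (srt s) τ i)) = wgt M s) then kap M (chm (srt s) τ) else 0) =
        kap M (chm (srt s) τ) := by
        intro τ
        rw [if_pos]
        rw [sum_chm, wgt_chm hM, h]
        exact ⟨rfl, rfl⟩
      simp only [h1]
      rw [sum_kap]
      have h2 : (Finset.univ.filter fun π : Equiv.Perm (Fin n) => upi M π = s) = {srt s} := by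
        ext π
        rw [Finset.mem_filter, Finset.mem_singleton]
        constructor
        · rintro ⟨_, h3⟩
          rw [← h3, srt_upi hM]
        · rintro rfl
          exact ⟨Finset.mem_univ _, h⟩
      rw [h2, Finset.card_singleton, Nat.cast_one, mul_one]
    · have h1 : ∀ τ, (if (∑ i, vx M (chm (srt s) τ i) = s ∧
        ∑ i, wgt M (vx M (chm (srt s) τ i)) = wgt M s) then kap M (chm (srt s) τ) else 0) = 0 := by
        intro τ
        rw [if_neg]
        rw [sum_chm]
        exact fun h3 => h h3.1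
      simp only [h1]
      have h2 : (Finset.univ.filter fun π : Equiv.Perm (Fin n) => upi M π = s) = ∅ := by
        rw [Finset.filter_eq_empty_iff]
        intro π _ h3
        apply h
        rw [← h3, srt_upi hM]
      rw [h2, Finset.card_empty, Nat.cast_zero, mul_zero, Finset.sum_const_zero]
  · intro f hf
    rw [ite_eq_right_iff]
    rintro ⟨h1, h2⟩
    apply kap_eq_zero
    intro hfinj
    apply hf
    -- every `f i` is an initial segment of `srt s`
    have h3 := (wp_sum M Finset.univ (fun i => vx M (f i)) (fun i _ => inCone_vx M _) (srt s)).1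
    rw [h1, ← wgt_eq_wp, ← h2] at h3
    have h4 : ∀ i ∈ Finset.univ, wp M (vx M (f i)) (srt s) = wgt M (vx M (f i)) :=
      (Finset.sum_eq_sum_iff_of_le (fun i _ => wp_le M _ _)).mp h3.symm
    have h5 : ∀ i, f i = ini (srt s) (f i).card := by
      intro i
      exact eq_ini_of_antitone hM (srt s) (f i)
        ((wp_eq_iff M _ (inCone_vx M _) (srt s)).mp (h4 i (Finset.mem_univ i)))
    have hcard : ∀ i, (f i).card < n + 1 := by
      intro i
      have := Finset.card_le_univ (f i)
      rw [Fintype.card_fin] at this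
      omega
    let g : Fin (n + 1) → Fin (n + 1) := fun i => ⟨(f i).card, hcard i⟩
    have hg : Function.Injective g := by
      intro i j hij
      apply hfinj
      rw [h5 i, h5 j]
      have : (f i).card = (f j).card := congrArg Fin.val hij
      rw [this]
    refine ⟨Equiv.ofBijective g (Finite.injective_iff_bijective.mp hg), ?_⟩
    funext i
    exact (h5 i).symm

theorem j0 : J0Stmt := by
  classical
  intro n M _ hM s
  rw [Jac_csp hM, coeff_sum]
  have hterm : ∀ f : Fin (n + 1) → Finset (Fin n), ∃ a : Polynomial ℚ,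
      coeff s (monomial (∑ i, vx M (f i))
        (Polynomial.C (kap M f) * Polynomial.X ^ (∑ i, wgt M (vx M (f i))) : Polynomial ℚ)
          : PP n (Polynomial ℚ)) =
      Polynomial.X ^ wgt M s * (Polynomial.C
        (if (∑ i, vx M (f i) = s ∧ ∑ i, wgt M (vx M (f i)) = wgt M s) then kap M f else 0)
        + Polynomial.X * a) := by
    intro f
    rw [coeff_monomial]
    by_cases h : ∑ i, vx M (f i) = s
    · rw [if_pos h]
      have hle : wgt M s ≤ ∑ i, wgt M (vx M (f i)) := by
        rw [← h]; exact wgt_sum_le M _ _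
      obtain ⟨e, he⟩ := Nat.exists_eq_add_of_le hle
      by_cases he0 : e = 0
      · refine ⟨0, ?_⟩
        rw [if_pos ⟨h, by omega⟩, he, he0]
        ring
      · obtain ⟨e', rfl⟩ := Nat.exists_eq_succ_of_ne_zero he0
        refine ⟨Polynomial.C (kap M f) * Polynomial.X ^ e', ?_⟩
        rw [if_neg (fun h3 => by have := h3.2; omega), he, map_zero, Nat.succ_eq_add_one]
        ring
    · rw [if_neg h, if_neg (fun h3 => h h3.1)]
      exact ⟨0, by simp⟩
  choose a ha using hterm
  refine ⟨∑ f, a f, ?_⟩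
  rw [Finset.sum_congr rfl fun f _ => ha f, ← Finset.mul_sum, Finset.sum_add_distrib,
    ← map_sum, ← Finset.mul_sum, sum_const hM]

end Pool.Agent.Helper95_CM.H15
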