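import Pool.Agent.Helper95_CM.StG

/-!
# NFR: reduction to number fields (CM project, MP_31342c_an)
-/

set_option autoImplicit false
set_option linter.unusedSectionVars false

noncomputable section

namespace Pool.Agent.Helper95_CM.H15

open MvPolynomial

/-- rational weight of an exponent -/
def qw {n : ℕ} (u : Fin n →₀ ℕ) : ℚ := ∏ k, (((u k + 1 : ℕ) : ℚ))⁻¹

lemma qw_map {n : ℕ} {K : Type} [Field K] (ψ : ℚ →+* K) (u : Fin n →₀ ℕ) :
    ψ (qw u) = ∏ k, (((u k + 1 : ℕ) : K))⁻¹ := by
  unfold qw
  rw [map_prod]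
  refine Finset.prod_congr rfl fun k _ => ?_
  rw [map_inv₀, map_natCast]

/-- moment over an algebra -/
def MomA {n : ℕ} {B : Type} [CommRing B] [Algebra ℚ B] (f : MvPolynomial (Fin n) B) : B :=
  ∑ u ∈ f.support, coeff u f * algebraMap ℚ B (qw u)

lemma Mom_map {n : ℕ} {B K : Type} [CommRing B] [Algebra ℚ B] [Field K]
    (φ : B →+* K) (f : MvPolynomial (Fin n) B) :
    Mom (map φ f) = φ (MomA f) := by
  unfold Mom MomA
  rw [map_sum]
  have hsub : (map φ f).support ⊆ f.support := support_map_subset _ _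
  rw [Finset.sum_subset hsub]
  · refine Finset.sum_congr rfl fun u _ => ?_
    rw [coeff_map, map_mul, ← RingHom.comp_apply, qw_map (φ.comp (algebraMap ℚ B))]
  · intro u _ hu
    rw [notMem_support_iff.mp hu, zero_mul]

lemma Mom_rename {n : ℕ} {K : Type} [Field K] (k : Fin (n + 1)) (g : MvPolynomial (Fin n) K) :
    Mom (rename k.succAbove g) = Mom g := by
  classical
  unfold Mom
  have hinj : Function.Injective k.succAbove := Fin.succAbove_right_injective
  rw [support_rename_of_injective hinj, Finset.sum_image]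
  · refine Finset.sum_congr rfl fun u _ => ?_
    rw [coeff_rename_mapDomain _ hinj, Fin.prod_univ_succAbove _ k]
    rw [Finsupp.mapDomain_notin_range]
    · simp only [zero_add, Nat.cast_one, inv_one, one_mul]
      congr 1
      refine Finset.prod_congr rfl fun j _ => ?_
      rw [Finsupp.mapDomain_apply hinj]
    · rintro ⟨j, hj⟩
      exact Fin.succAbove_ne k j hj
  · intro u _ v _ h
    exact Finsupp.mapDomain_injective hinj h

theorem nfr : NfrStmt := by
  classical
  intro hex
  -- minimal number of variables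
  let P : ℕ → Prop := fun n => ∃ f : MvPolynomial (Fin n) ℂ, f ≠ 0 ∧ ∀ m : ℕ, 1 ≤ m → Mom (f ^ m) = 0
  have hP : ∃ n, P n := hex
  obtain ⟨f, hf0, hf⟩ := Nat.find_spec hP
  have hmin : ∀ n' < Nat.find hP, ¬ P n' := fun n' h => Nat.find_min hP h
  generalize hn : Nat.find hP = n at f hf0 hf hmin
  have hn1 : 1 ≤ n := by
    rcases Nat.eq_zero_or_pos n with h0 | h0
    · exfalso
      subst h0
      have h1 := hf 1 le_rfl
      rw [pow_one] at h1
      obtain ⟨u, hu⟩ := MvPolynomial.support_nonempty.mpr hf0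
      have hsupp : f.support = {u} := by
        ext v
        rw [Finset.mem_singleton]
        constructor
        · intro _; exact Subsingleton.elim _ _
        · rintro rfl; exact hu
      unfold Mom at h1
      rw [hsupp, Finset.sum_singleton] at h1
      simp only [Finset.univ_eq_empty, Finset.prod_empty, mul_one] at h1
      exact (mem_support_iff.mp hu) h1
    · exact h0
  have hvar : ∀ k, ∃ u ∈ f.support, 0 < u k := by
    intro k
    by_contra hc
    push Not at hc
    obtain ⟨n', rfl⟩ : ∃ n', n = n' + 1 := ⟨n - 1, by omega⟩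
    have hv : (f.vars : Set (Fin (n' + 1))) ⊆ Set.range k.succAbove := by
      intro j hj
      rw [Fin.range_succAbove]
      rintro rfl
      rw [Finset.mem_coe, mem_vars] at hj
      obtain ⟨d, hd, hd2⟩ := hj
      have h1 := hc d hd
      rw [Finsupp.mem_support_iff] at hd2
      omega
    obtain ⟨g, hg⟩ := exists_rename_eq_of_vars_subset_range f k.succAbove
      Fin.succAbove_right_injective hv
    apply hmin n' (Nat.lt_succ_self n')
    refine ⟨g, ?_, fun m hm => ?_⟩
    · rintro rfl
      apply hf0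
      rw [← hg, map_zero]
    · have h1 := hf m hm
      rw [← hg, ← map_pow, Mom_rename] at h1
      exact h1
  -- descent to a finitely generated algebra
  let S : Finset ℂ := f.support.image (fun u => coeff u f) ∪
    f.support.image (fun u => (coeff u f)⁻¹)
  let B : Subalgebra ℚ ℂ := Algebra.adjoin ℚ (S : Set ℂ)
  have hft : Algebra.FiniteType ℚ B :=
    (Subalgebra.fg_iff_finiteType B).mp ⟨S, rfl⟩
  have hc1 : ∀ u ∈ f.support, coeff u f ∈ B := fun u hu =>
    Algebra.subset_adjoin (Finset.mem_coe.mpr (Finset.mem_union_left _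
      (Finset.mem_image_of_mem (fun u => coeff u f) hu)))
  have hc2 : ∀ u ∈ f.support, (coeff u f)⁻¹ ∈ B := fun u hu =>
    Algebra.subset_adjoin (Finset.mem_coe.mpr (Finset.mem_union_right _
      (Finset.mem_image_of_mem (fun u => (coeff u f)⁻¹) hu)))
  let fB : MvPolynomial (Fin n) B := ∑ u ∈ f.support.attach, monomial u.1 ⟨coeff u.1 f, hc1 u.1 u.2⟩
  have hfB : map (B.val : B →+* ℂ) fB = f := by
    change map (B.val : B →+* ℂ) (∑ u ∈ f.support.attach, monomial u.1 ⟨coeff u.1 f, hc1 u.1 u.2⟩) = f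
    rw [map_sum]
    simp only [map_monomial]
    conv_rhs => rw [f.as_sum, ← Finset.sum_attach]
    rfl
  have hcoeff : ∀ u, ((coeff u fB : B) : ℂ) = coeff u f := by
    intro u
    conv_rhs => rw [← hfB, coeff_map]
    rfl
  have hMomB : ∀ m : ℕ, 1 ≤ m → MomA (fB ^ m) = 0 := by
    intro m hm
    have h1 := hf m hm
    rw [← hfB, ← map_pow, Mom_map (B.val : B →+* ℂ)] at h1
    exact Subtype.ext h1
  obtain ⟨mx, hmx⟩ := Ideal.exists_maximal B
  letI : Field (B ⧸ mx) := Ideal.Quotient.field mx
  let π : B →ₐ[ℚ] (B ⧸ mx) := Ideal.Quotient.mkₐ ℚ mx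
  have hft2 : Algebra.FiniteType ℚ (B ⧸ mx) :=
    Algebra.FiniteType.of_surjective π (Ideal.Quotient.mkₐ_surjective ℚ mx)
  have hfin : Module.Finite ℚ (B ⧸ mx) := finite_of_finite_type_of_isJacobsonRing ℚ (B ⧸ mx)
  haveI hcz : CharZero (B ⧸ mx) := algebraRat.charZero (B ⧸ mx)
  have hnf : NumberField (B ⧸ mx) :=
    { to_charZero := hcz
      to_finiteDimensional := by
        convert hfin
        exact Subsingleton.elim _ _ }
  refine ⟨n, B ⧸ mx, inferInstance, hnf, map (π : B →+* (B ⧸ mx)) fB, hn1, ?_, ?_⟩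
  · intro k
    obtain ⟨u, hu, huk⟩ := hvar k
    refine ⟨u, ?_, huk⟩
    rw [mem_support_iff, coeff_map]
    have hne := mem_support_iff.mp hu
    have hunit : IsUnit (coeff u fB) := by
      rw [isUnit_iff_exists_inv]
      refine ⟨⟨(coeff u f)⁻¹, hc2 u hu⟩, ?_⟩
      apply Subtype.ext
      change ((coeff u fB : B) : ℂ) * (coeff u f)⁻¹ = 1
      rw [hcoeff, mul_inv_cancel₀ hne]
    exact (hunit.map (π : B →+* (B ⧸ mx))).ne_zero
  · intro m hm
    rw [← map_pow, Mom_map (π : B →+* (B ⧸ mx)), hMomB m hm, map_zero]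

end Pool.Agent.Helper95_CM.H15
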