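import Pool.Agent.Helper95_CM.CA
import Pool.Agent.Helper95_CM.Base

/-!
# WGT: subadditivity of the weight (CM project, MP_31342c_an)
-/

set_option autoImplicit false
set_option linter.unusedSectionVars false

noncomputable section

namespace Pool.Agent.Helper95_CM.H15

open MvPolynomial

variable {n : ℕ}

lemma vx_zero (M : ℕ) (S : Finset (Fin n)) : vx M S 0 = 1 := rfl
lemma vx_succ (M : ℕ) (S : Finset (Fin n)) (k : Fin n) : vx M S k.succ = if k ∈ S then M else 0 :=
  rfl

lemma inCone_vx (M : ℕ) (S : Finset (Fin n)) : InCone M false (vx M S) := by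
  intro k
  rw [vx_succ, vx_zero, mul_one]
  split_ifs <;> omega

lemma srt_antitone (s : Expo n) {a b : Fin n} (h : a ≤ b) : s (srt s b).succ ≤ s (srt s a).succ :=
  OrderDual.toDual_le_toDual.mp
    (Tuple.monotone_sort (fun k : Fin n => OrderDual.toDual (s k.succ)) h)

/-- weight along a permutation -/
def wp (M : ℕ) (s : Expo n) (σ : Equiv.Perm (Fin n)) : ℕ :=
  ∑ r : Fin n, (r : ℕ) * (M * s 0 - s (σ r).succ)

lemma wgt_eq_wp (M : ℕ) (s : Expo n) : wgt M s = wp M s (srt s) := rfl

lemma monovary_srt (M : ℕ) (s : Expo n) :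
    Monovary (fun r : Fin n => (r : ℕ)) (fun r : Fin n => M * s 0 - s (srt s r).succ) := by
  intro i j hij
  simp only at hij
  by_contra h
  push Not at h
  have h1 : j ≤ i := by
    rw [Fin.le_def]; omega
  have h2 := srt_antitone s h1
  omega

lemma wp_eq (M : ℕ) (s : Expo n) (σ : Equiv.Perm (Fin n)) :
    wp M s σ = ∑ r : Fin n, (r : ℕ) *
      (fun r : Fin n => M * s 0 - s (srt s r).succ) (((srt s)⁻¹ * σ) r) := by
  unfold wp
  refine Finset.sum_congr rfl fun r _ => ?_
  simp [Equiv.Perm.mul_apply]

lemma wp_le (M : ℕ) (s : Expo n) (σ : Equiv.Perm (Fin n)) : wp M s σ ≤ wgt M s := by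
  rw [wp_eq]
  exact (monovary_srt M s).sum_mul_comp_perm_le_sum_mul

lemma wp_eq_iff (M : ℕ) (s : Expo n) (hs : InCone M false s) (σ : Equiv.Perm (Fin n)) :
    wp M s σ = wgt M s ↔ ∀ a b : Fin n, a ≤ b → s (σ b).succ ≤ s (σ a).succ := by
  rw [wp_eq]
  have h := (monovary_srt M s).sum_mul_comp_perm_eq_sum_mul_iff (σ := (srt s)⁻¹ * σ)
  rw [wgt_eq_wp]
  unfold wp
  rw [h]
  have e : ∀ x, srt s ((srt s)⁻¹ x) = x := fun x => (srt s).apply_symm_apply x
  constructor
  · intro hm a b hab
    by_contra hc
    push Not at hc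
    have hb := hs (σ b)
    have ha := hs (σ a)
    have h1 := @hm b a (by
      simp only [Function.comp, Equiv.Perm.mul_apply, e]
      omega)
    simp only at h1
    have h2 : a = b := le_antisymm hab (by rw [Fin.le_def]; exact h1)
    rw [h2] at hc
    exact lt_irrefl _ hc
  · intro hm i j hij
    simp only [Function.comp, Equiv.Perm.mul_apply, e] at hij
    simp only
    by_contra hc
    push Not at hc
    have := hm j i (by rw [Fin.le_def]; omega)
    omega

/-- weights along a fixed permutation are additive on the cone -/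
lemma wp_add (M : ℕ) (s v : Expo n) (hs : InCone M false s) (hv : InCone M false v)
    (σ : Equiv.Perm (Fin n)) : wp M (s + v) σ = wp M s σ + wp M v σ := by
  unfold wp
  rw [← Finset.sum_add_distrib]
  refine Finset.sum_congr rfl fun r _ => ?_
  rw [← mul_add]
  congr 1
  have h1 := hs (σ r)
  have h2 := hv (σ r)
  rw [Finsupp.add_apply, Finsupp.add_apply, mul_add]
  omega

lemma cpt_iff (M : ℕ) (hM : 1 ≤ M) (s : Expo n) (S : Finset (Fin n)) :
    Cpt s S ↔ ((∀ a b : Fin n, a ≤ b → s (srt (s + vx M S) b).succ ≤ s (srt (s + vx M S) a).succ) ∧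
      ∀ a b : Fin n, a ≤ b →
        vx M S (srt (s + vx M S) b).succ ≤ vx M S (srt (s + vx M S) a).succ) := by
  have key : ∀ a b : Fin n, a ≤ b →
      s (srt (s + vx M S) b).succ + vx M S (srt (s + vx M S) b).succ ≤
      s (srt (s + vx M S) a).succ + vx M S (srt (s + vx M S) a).succ := fun a b hab =>
    srt_antitone (s + vx M S) hab
  constructor
  · intro hc
    constructor
    · intro a b hab
      have h1 := key a b hab
      have h2 := hc (srt (s + vx M S) b) (srt (s + vx M S) a)
      rw [vx_succ, vx_succ] at h1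
      by_cases ha : srt (s + vx M S) a ∈ S
      · by_cases hb : srt (s + vx M S) b ∈ S
        · rw [if_pos ha, if_pos hb] at h1; omega
        · exact h2 hb ha
      · rw [if_neg ha] at h1; omega
    · intro a b hab
      have h1 := key a b hab
      have h2 := hc (srt (s + vx M S) a) (srt (s + vx M S) b)
      rw [vx_succ, vx_succ] at h1 ⊢
      by_cases ha : srt (s + vx M S) a ∈ S
      · rw [if_pos ha]; split_ifs <;> omega
      · by_cases hb : srt (s + vx M S) b ∈ S
        · have h3 := h2 ha hb
          rw [if_neg ha, if_pos hb] at h1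
          omega
        · rw [if_neg ha, if_neg hb]
  · rintro ⟨h1, h2⟩ i j hi hj
    have h3 := h1 ((srt (s + vx M S)).symm j) ((srt (s + vx M S)).symm i)
    have h4 := h2 ((srt (s + vx M S)).symm i) ((srt (s + vx M S)).symm j)
    simp only [Equiv.apply_symm_apply] at h3 h4
    rcases le_total ((srt (s + vx M S)).symm i) ((srt (s + vx M S)).symm j) with h5 | h5
    · have h6 := h4 h5
      rw [vx_succ, vx_succ, if_pos hj, if_neg hi] at h6
      omega
    · exact h3 h5

theorem wgt_thm : WgtStmt := by
  intro n M s S _ hM hs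
  have hv := inCone_vx M S
  have hadd := wp_add M s (vx M S) hs hv (srt (s + vx M S))
  have h1 := wp_le M s (srt (s + vx M S))
  have h2 := wp_le M (vx M S) (srt (s + vx M S))
  have h3 := wp_eq_iff M s hs (srt (s + vx M S))
  have h4 := wp_eq_iff M (vx M S) hv (srt (s + vx M S))
  rw [← wgt_eq_wp] at hadd
  refine ⟨by omega, ?_⟩
  rw [cpt_iff M hM s S, ← h3, ← h4]
  omega

end Pool.Agent.Helper95_CM.H15
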